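import Pool.Agent.V1126.BN.Alg

/-!
# Iterated commutators of two unipotents whose product of nilpotent parts is nilpotent
-/

namespace Pool.Agent.V1126.BN

open Polynomial Matrix MatrixGroups

/-- Iterated commutators in the free group on two generators. -/
def wd : ℕ → FreeGroup (Fin 2)
  | 0 => FreeGroup.of 1
  | m + 1 => wd m * FreeGroup.of 0 * (wd m)⁻¹ * (FreeGroup.of 0)⁻¹

theorem wd_ne_one (m : ℕ) : wd m ≠ 1 := by
  intro h
  let φ : FreeGroup (Fin 2) →* Equiv.Perm (Fin 3) :=
    FreeGroup.lift ![Equiv.swap 0 1, finRotate 3]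
  have h0 : φ (FreeGroup.of 0) = Equiv.swap 0 1 := by simp [φ]
  have h1 : φ (FreeGroup.of 1) = finRotate 3 := by simp [φ]
  have key : ∀ m, φ (wd m) = finRotate 3 ∨ φ (wd m) = (finRotate 3)⁻¹ := by
    intro m
    induction m with
    | zero => left; rw [wd, h1]
    | succ m ih =>
      rw [wd, map_mul, map_mul, map_mul, map_inv, map_inv, h0]
      rcases ih with ih | ih
      · right; rw [ih]; decide
      · left; rw [ih]; decide
  rcases key m with h2 | h2
  · rw [h, map_one] at h2
    exact absurd h2 (by decide)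
  · rw [h, map_one] at h2
    exact absurd h2 (by decide)

section words

variable {R : Type*} [Ring R] (a b : R)

/-- Alternating words. -/
def alt : ℕ → R × R
  | 0 => (1, 1)
  | k + 1 => (a * (alt k).2, b * (alt k).1)

variable {a b}

theorem alt_two (n j : ℕ) : (alt a b (2 * n + j)).1 = (a * b) ^ n * (alt a b j).1 := by
  induction n with
  | zero => simp
  | succ n ih =>
    have e : 2 * (n + 1) + j = (2 * n + j + 1) + 1 := by ring
    rw [e, alt, alt, ih, pow_succ', mul_assoc, mul_assoc]

theorem word_prod (ha : a * a = 0) (hb : b * b = 0) (k : ℕ) :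
    ∀ l : List R, (∀ y ∈ l, y = a ∨ y = b) → k ≤ l.length →
      ∃ y, l.prod = (alt a b k).1 * y ∨ l.prod = (alt a b k).2 * y := by
  induction k with
  | zero => intro l _ _; exact ⟨l.prod, Or.inl (by simp [alt])⟩
  | succ k ih =>
    intro l hl hk
    cases l with
    | nil => simp at hk
    | cons c t =>
      obtain ⟨y, hy⟩ := ih t (fun z hz => hl z (List.mem_cons_of_mem _ hz)) (by simpa using hk)
      rw [List.prod_cons]
      rcases hl c List.mem_cons_self with rfl | rfl
      · rcases hy with hy | hy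
        · cases k with
          | zero => exact ⟨y, Or.inl (by rw [hy]; simp [alt])⟩
          | succ k =>
            refine ⟨0, Or.inl ?_⟩
            rw [hy, alt, ← mul_assoc, ← mul_assoc, ha, zero_mul, zero_mul, mul_zero]
        · exact ⟨y, Or.inl (by rw [hy, alt, mul_assoc])⟩
      · rcases hy with hy | hy
        · exact ⟨y, Or.inr (by rw [hy, alt, mul_assoc])⟩
        · cases k with
          | zero => exact ⟨y, Or.inr (by rw [hy]; simp [alt])⟩
          | succ k =>
            refine ⟨0, Or.inr ?_⟩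
            rw [hy, alt, ← mul_assoc, ← mul_assoc, hb, zero_mul, zero_mul, mul_zero]

variable (a b) in
/-- The span of the words of length at least `k`. -/
def fil (k : ℕ) : AddSubgroup R :=
  AddSubgroup.closure {x | ∃ l : List R, (∀ y ∈ l, y = a ∨ y = b) ∧ k ≤ l.length ∧ x = l.prod}

theorem fil_mul {i j : ℕ} {x y : R} (hx : x ∈ fil a b i) (hy : y ∈ fil a b j) :
    x * y ∈ fil a b (i + j) := by
  induction hx using AddSubgroup.closure_induction with
  | mem x hx =>
    obtain ⟨l, hl, hli, rfl⟩ := hx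
    induction hy using AddSubgroup.closure_induction with
    | mem y hy =>
      obtain ⟨l', hl', hli', rfl⟩ := hy
      refine AddSubgroup.subset_closure ⟨l ++ l', ?_, ?_, ?_⟩
      · intro z hz
        rcases List.mem_append.1 hz with h | h
        · exact hl z h
        · exact hl' z h
      · rw [List.length_append]; omega
      · rw [List.prod_append]
    | zero => rw [mul_zero]; exact zero_mem _
    | add y y' _ _ h h' => rw [mul_add]; exact add_mem h h'
    | neg y _ h => rw [mul_neg]; exact neg_mem h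
  | zero => rw [zero_mul]; exact zero_mem _
  | add x x' _ _ h h' => rw [add_mul]; exact add_mem h h'
  | neg x _ h => rw [neg_mul]; exact neg_mem h

theorem fil_mul_zero {i : ℕ} {x y : R} (hx : x ∈ fil a b i) (hy : y ∈ fil a b 0) :
    x * y ∈ fil a b i := by
  have h := fil_mul hx hy
  rwa [add_zero] at h

theorem fil_anti {i j : ℕ} (h : i ≤ j) : fil a b j ≤ fil a b i :=
  AddSubgroup.closure_mono fun _ ⟨l, h1, h2, h3⟩ => ⟨l, h1, h.trans h2, h3⟩

theorem fil_bot (ha : a * a = 0) (hb : b * b = 0) {n : ℕ} (hn : (a * b) ^ n = 0) {x : R}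
    (hx : x ∈ fil a b (2 * n + 1)) : x = 0 := by
  have h1 : (alt a b (2 * n + 1)).1 = 0 := by rw [alt_two, hn, zero_mul]
  have h2 : (alt a b (2 * n + 1)).2 = 0 := by
    have := alt_two (a := a) (b := b) n 0
    rw [hn, zero_mul, add_zero] at this
    rw [alt, this, mul_zero]
  induction hx using AddSubgroup.closure_induction with
  | mem x hx =>
    obtain ⟨l, hl, hli, rfl⟩ := hx
    obtain ⟨y, hy | hy⟩ := word_prod ha hb _ l hl hli
    · rw [hy, h1, zero_mul]
    · rw [hy, h2, zero_mul]
  | zero => rfl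
  | add x y _ _ h h' => rw [h, h', add_zero]
  | neg x _ h => rw [h, neg_zero]

theorem wd_eq_one (ha : a * a = 0) (hb : b * b = 0) {n : ℕ} (hn : (a * b) ^ n = 0)
    (u : Fin 2 → Rˣ) (h0 : (u 0 : R) = 1 + a) (h1 : (u 1 : R) = 1 + b) :
    FreeGroup.lift u (wd (2 * n)) = 1 := by
  have f1 : (1 : R) ∈ fil a b 0 := AddSubgroup.subset_closure ⟨[], by simp, by simp, by simp⟩
  have fa : a ∈ fil a b 1 := AddSubgroup.subset_closure ⟨[a], by simp, by simp, by simp⟩
  have fb : b ∈ fil a b 1 := AddSubgroup.subset_closure ⟨[b], by simp, by simp, by simp⟩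
  have i0 : ((u 0)⁻¹ : Rˣ).val = 1 - a := by
    apply Units.inv_eq_of_mul_eq_one_right
    rw [h0, add_mul, one_mul, mul_sub, mul_one, ha, sub_zero, sub_add_cancel]
  have i1 : ((u 1)⁻¹ : Rˣ).val = 1 - b := by
    apply Units.inv_eq_of_mul_eq_one_right
    rw [h1, add_mul, one_mul, mul_sub, mul_one, hb, sub_zero, sub_add_cancel]
  have g0 : (u 0 : R) ∈ fil a b 0 := by
    rw [h0]; exact add_mem f1 (fil_anti (Nat.zero_le 1) fa)
  have gi0 : ((u 0)⁻¹ : Rˣ).val ∈ fil a b 0 := by
    rw [i0]; exact sub_mem f1 (fil_anti (Nat.zero_le 1) fa)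
  have key : ∀ m, ((FreeGroup.lift u (wd m) : Rˣ) : R) - 1 ∈ fil a b (m + 1) ∧
      ((FreeGroup.lift u (wd m))⁻¹ : Rˣ).val ∈ fil a b 0 := by
    intro m
    induction m with
    | zero =>
      have e : FreeGroup.lift u (wd 0) = u 1 := by simp [wd]
      rw [e, h1, i1]
      refine ⟨?_, sub_mem f1 (fil_anti (Nat.zero_le 1) fb)⟩
      rw [add_sub_cancel_left]
      exact fb
    | succ m ih =>
      set g := FreeGroup.lift u (wd m) with hg
      have e : FreeGroup.lift u (wd (m + 1)) = g * u 0 * g⁻¹ * (u 0)⁻¹ := by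
        simp [wd, hg]
      have gg : (g : R) ∈ fil a b 0 := by
        have := add_mem (fil_anti (Nat.zero_le _) ih.1) f1
        rwa [sub_add_cancel] at this
      rw [e]
      constructor
      · have e2 : ((g * u 0 * g⁻¹ * (u 0)⁻¹ : Rˣ) : R) - 1 =
            (((g : R) - 1) * a - a * ((g : R) - 1)) * (g⁻¹ : Rˣ).val * ((u 0)⁻¹ : Rˣ).val := by
          have e3 : ((g : R) - 1) * a - a * ((g : R) - 1) = g * u 0 - u 0 * g := by
            rw [h0]; noncomm_ring
          have e4 : (u 0 : R) * g * (g⁻¹ : Rˣ).val * ((u 0)⁻¹ : Rˣ).val = 1 := by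
            rw [mul_assoc (u 0 : R), Units.mul_inv, mul_one, Units.mul_inv]
          rw [e3, sub_mul, sub_mul, e4]
          push_cast
          rfl
        rw [e2]
        have h3 : ((g : R) - 1) * a - a * ((g : R) - 1) ∈ fil a b (m + 1 + 1) :=
          sub_mem (fil_mul ih.1 fa) (by rw [add_comm (m + 1)]; exact fil_mul fa ih.1)
        exact fil_mul_zero (fil_mul_zero h3 ih.2) gi0
      · have e5 : ((g * u 0 * g⁻¹ * (u 0)⁻¹)⁻¹ : Rˣ).val =
            (u 0 : R) * g * ((u 0)⁻¹ : Rˣ).val * (g⁻¹ : Rˣ).val := by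
          rw [_root_.mul_inv_rev, _root_.mul_inv_rev, _root_.mul_inv_rev, inv_inv, inv_inv,
            Units.val_mul,
            Units.val_mul, Units.val_mul, mul_assoc, mul_assoc]
        rw [e5]
        exact fil_mul_zero (fil_mul_zero (fil_mul_zero g0 gg) gi0) ih.2
  have h5 := fil_bot ha hb hn (key (2 * n)).1
  apply Units.ext
  rw [Units.val_one]
  exact sub_eq_zero.1 h5

end words

/-- Transfer of words along an equivariant map. -/
theorem lift_transfer {G G' P Q : Type*} [Group G] [Group G'] (f : G → P → P) (f' : G' → Q → Q)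
    (f1 : ∀ x, f 1 x = x) (fm : ∀ g h x, f (g * h) x = f g (f h x)) (f1' : ∀ x, f' 1 x = x)
    (fm' : ∀ g h x, f' (g * h) x = f' g (f' h x)) (ι : Q → P) (g : Fin 2 → G) (h : Fin 2 → G')
    (H : ∀ i v, f (g i) (ι v) = ι (f' (h i) v)) (w : FreeGroup (Fin 2)) (v : Q) :
    f (FreeGroup.lift g w) (ι v) = ι (f' (FreeGroup.lift h w) v) := by
  induction w using FreeGroup.induction_on generalizing v with
  | C1 => rw [map_one, map_one, f1, f1']
  | of i => rw [FreeGroup.lift_apply_of, FreeGroup.lift_apply_of, H]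
  | inv_of i ih =>
    rw [map_inv, map_inv]
    have h1 := ih (f' (FreeGroup.lift h (FreeGroup.of i))⁻¹ v)
    rw [← fm', mul_inv_cancel, f1'] at h1
    rw [← h1, ← fm, inv_mul_cancel, f1]
  | mul x y hx hy => rw [map_mul, map_mul, fm, hy, hx, ← fm']

section pairs

variable {M : Type*} [AddCommGroup M] [Module ℚ M] (T : Module.End ℚ M)

/-- The action of matrices with entries in `ℚ[X]` on pairs, with `X` acting as `T`. -/
noncomputable def pact (N : SL(2, ℚ[X])) (v : Fin 2 → M) : Fin 2 → M := fun i =>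
  aeval T ((N : Matrix (Fin 2) (Fin 2) ℚ[X]) i 0) (v 0) +
    aeval T ((N : Matrix (Fin 2) (Fin 2) ℚ[X]) i 1) (v 1)

theorem pact_one (v : Fin 2 → M) : pact T 1 v = v := by
  funext i
  fin_cases i <;> simp [pact]

theorem pact_mul (N N' : SL(2, ℚ[X])) (v : Fin 2 → M) :
    pact T (N * N') v = pact T N (pact T N' v) := by
  funext i
  simp only [pact, Matrix.SpecialLinearGroup.coe_mul, Matrix.mul_apply, Fin.sum_univ_two, map_add,
    map_mul, LinearMap.add_apply, Module.End.mul_apply]
  abel

theorem pact_lo (v : Fin 2 → M) : pact T (lo X) v = ![v 0, v 1 + T (v 0)] := by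
  funext i
  fin_cases i
  · simp [pact, lo]
  · simp [pact, lo, add_comm]

theorem pact_up (v : Fin 2 → M) : pact T (up X) v = ![v 0 + T (v 1), v 1] := by
  funext i
  fin_cases i <;> simp [pact, up]

/-- If the matrix of a word acts trivially on all pairs, then its entries minus those of the unit
matrix vanish at `T`. -/
theorem entries_of_trivial {w : FreeGroup (Fin 2)}
    (h : ∀ v : Fin 2 → M, pact T (mw w) v = v) (i j : Fin 2) :
    aeval T ((mw w : Matrix (Fin 2) (Fin 2) ℚ[X]) i j - (1 : Matrix (Fin 2) (Fin 2) ℚ[X]) i j) =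
      0 := by
  ext x
  have h1 := congrFun (h (Pi.single j x)) i
  fin_cases i <;> fin_cases j <;> simp [pact, sub_eq_zero] at h1 ⊢ <;> exact h1

end pairs

end Pool.Agent.V1126.BN
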