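import Pool.Agent.V1126.BN.AJDefs
import Pool.Agent.V1126.BN.Nil
import Pool.Agent.V1157.AK.Main

/-!
# Unipotent pairs of correspondences on kernels of Abel-Jacobi maps
-/

open CategoryTheory AlgebraicGeometry

universe u v w

namespace Pool.Agent.V1126.BN

open Pool.Agent.H914 Pool.Agent.H914.VarClass Pool.Agent.H914.VarClass.Obj Pool.Agent.W492.BB
  Pool.Agent.W550.Corr Pool.Agent.TH133 Pool.Agent.Y148.BB Pool.Agent.V1157.KF
  Pool.Agent.V1157.AK
open Pool.Agent.V1157.RC (act_smul' push_pull_of)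

set_option linter.unusedSectionVars false

theorem aeval_two {f : Polynomial ℚ}
    (h : Polynomial.aeval ((2 : ℚ) • (1 : Module.End ℚ ℚ)) f = 0) :
    Polynomial.aeval (2 : ℂ) f = 0 := by
  have e1 : (2 : ℚ) • (1 : Module.End ℚ ℚ) = algebraMap ℚ (Module.End ℚ ℚ) 2 :=
    (Algebra.algebraMap_eq_smul_one 2).symm
  rw [e1, Polynomial.aeval_algebraMap_apply] at h
  have h1 := congrArg (fun F : Module.End ℚ ℚ => F 1) h
  have h2 : Polynomial.aeval (2 : ℚ) f = 0 := by
    simpa [Algebra.algebraMap_eq_smul_one] using h1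
  have e2 : (2 : ℂ) = algebraMap ℚ ℂ 2 := by simp
  rw [e2, Polynomial.aeval_algebraMap_apply, h2, map_zero]

variable {k : Type u} [Field k] {𝒱 : VarClass k} {C : TheoryData.{u, v, 0} 𝒱 ℚ}
  [hC : IsChowProj C] {K : Type w} [Field K] {H : WeilTheoryData.{u, v, w} C K}
  [hH : IsWeilProj H] {S V X Y : 𝒱.Obj} {n m : ℕ}

include hC hH

lemma kernel_add (a : AbelJacobi.{u, v, w} H n m) {x y : C.A X} (hx : InKernel a X x)
    (hy : InKernel a X y) : InKernel a X (x + y) :=
  ⟨⟨Submodule.add_mem _ hx.1.1 hy.1.1, by rw [map_add, hx.1.2, hy.1.2, add_zero]⟩, by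
    rw [a.φ_add hx.1 hy.1, hx.2, hy.2, add_zero]⟩

lemma kernel_smul (a : AbelJacobi.{u, v, w} H n m) {x : C.A X} (q : ℚ) (hx : InKernel a X x) :
    InKernel a X (q • x) :=
  ⟨⟨Submodule.smul_mem _ q hx.1.1, by rw [Algebra.smul_def, map_mul, hx.1.2, mul_zero]⟩, by
    rw [a.φ_smul q hx.1, hx.2, smul_zero]⟩

lemma kernel_mt (a : AbelJacobi.{u, v, w} H n m) (hS : S.dim = n) (hV : V.dim = n)
    (p q : V ⟶ S) {x : C.A V} (hx : InKernel a V x) : InKernel a V (C.act (mt C p q) x) := by
  rw [act_mt]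
  exact ((kernel_fam a).pull q hV hS ((kernel_fam a).push p hV hS ⟨hV, hx⟩)).2

section pair

variable {a : AbelJacobi.{u, v, w} H n m} {p : ℕ → (V ⟶ S)} {b : C.A S} {c κ : ℚ}

/-- The two correspondences on `V`. -/
noncomputable def ee (C : TheoryData.{u, v, 0} 𝒱 ℚ) {S V : 𝒱.Obj} (p : ℕ → (V ⟶ S)) (s : ℚ) :
    Fin 2 → C.A (V.prod V) := ![s • mt C (p 0) (p 1), s • mt C (p 1) (p 0)]

lemma ee_spec (a : AbelJacobi.{u, v, w} H n m) (h : Pw C n 2 p b c κ) (s : ℚ) (i : Fin 2) :
    C.Deg n (ee C p s i) ∧ (∀ x, InKernel a V x → InKernel a V (C.act (ee C p s i) x)) ∧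
      ∀ x, InKernel a V x → C.act (ee C p s i) (C.act (ee C p s i) x) = 0 := by
  have key : ∀ i j : ℕ, i < 2 → j < 2 → i ≠ j → C.Deg n (s • mt C (p i) (p j)) ∧
      (∀ x, InKernel a V x → InKernel a V (C.act (s • mt C (p i) (p j)) x)) ∧
      ∀ x, InKernel a V x →
        C.act (s • mt C (p i) (p j)) (C.act (s • mt C (p i) (p j)) x) = 0 := by
    intro i j hi hj hij
    refine ⟨Submodule.smul_mem _ _ (mt_mem h.dimS h.dimV _ _), fun x hx => ?_, fun x hx => ?_⟩
    · rw [act_smul']
      exact kernel_smul a s (kernel_mt a h.dimS h.dimV _ _ hx)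
    · have h1 : HomTriv H m (C.push (p i) x) :=
        ((kernel_fam a).push (p i) h.dimV h.dimS ⟨h.dimV, hx⟩).2.1
      rw [act_smul', act_smul', act_map_smul, act_mt, act_mt,
        h.push_pull_ne H hj hi (Ne.symm hij) h1, map_zero, smul_zero, smul_zero]
  fin_cases i
  · exact key 0 1 (by norm_num) (by norm_num) (by norm_num)
  · exact key 1 0 (by norm_num) (by norm_num) (by norm_num)

/-- The unipotent bijections of the kernel. -/
noncomputable def uperm (a : AbelJacobi.{u, v, w} H n m) {V : 𝒱.Obj} (E : C.A (V.prod V))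
    (h1 : ∀ x, InKernel a V x → InKernel a V (C.act E x))
    (h2 : ∀ x, InKernel a V x → C.act E (C.act E x) = 0) : Equiv.Perm (Ker a V) where
  toFun x := ⟨x.1 + C.act E x.1, kernel_add a x.2 (h1 _ x.2)⟩
  invFun x := ⟨x.1 + (-1 : ℚ) • C.act E x.1, kernel_add a x.2 (kernel_smul a _ (h1 _ x.2))⟩
  left_inv x := by
    apply Subtype.ext
    change (x.1 + C.act E x.1) + (-1 : ℚ) • C.act E (x.1 + C.act E x.1) = x.1
    rw [act_map_add, h2 _ x.2, add_zero, neg_one_smul, add_neg_cancel_right]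
  right_inv x := by
    apply Subtype.ext
    change (x.1 + (-1 : ℚ) • C.act E x.1) + C.act E (x.1 + (-1 : ℚ) • C.act E x.1) = x.1
    rw [act_map_add, act_map_smul, h2 _ x.2, smul_zero, add_zero, neg_one_smul,
      neg_add_cancel_right]

lemma injective_of_noFreePairs (a : AbelJacobi.{u, v, w} H n m)
    (hP : ∀ (S : 𝒱.Obj) (N : ℕ), S.dim = n → HasPower C n N S) (h : NoFreePairs a) :
    AllInjective a := by
  intro S x hS hx
  by_contra hx0
  obtain ⟨V, p, b, c, κ, hp⟩ := exists_pw hS (hP S 2 hS)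
  have hκ := hp.hκ
  set s : ℚ := 2 / κ with hs
  have hsκ : s * κ = 2 := by rw [hs]; field_simp
  have hsp := fun i => ee_spec a hp s i
  obtain ⟨w, hw1, hw⟩ := h V (ee C p s) hp.dimV (fun i => (hsp i).1)
    (fun i x => (hsp i).2.2 x.1 x.2)
  let g : Fin 2 → Equiv.Perm (Ker a V) := fun i => uperm a (ee C p s i) (hsp i).2.1 (hsp i).2.2
  have hg := hw g (fun i x => by
    change x.1 + C.act (ee C p s i) x.1 - x.1 = _
    rw [add_sub_cancel_left])
  have hker : ∀ (i : ℕ) (q : ℚ), InKernel a V (C.pull (p i) (q • x)) := fun i q =>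
    ((kernel_fam a).pull (p i) hp.dimV hp.dimS ⟨hS, kernel_smul a q hx⟩).2
  let ι : (Fin 2 → ℚ) → Ker a V := fun v =>
    ⟨C.pull (p 0) (v 0 • x) + C.pull (p 1) (v 1 • x), kernel_add a (hker 0 _) (hker 1 _)⟩
  have htriv : ∀ q : ℚ, HomTriv H m (q • x) := fun q => (kernel_smul a q hx).1
  have e0 : ∀ q : ℚ, C.act (s • mt C (p 0) (p 1)) (C.pull (p 0) (q • x)) =
      C.pull (p 1) ((2 * q) • x) := by
    intro q
    rw [act_smul', act_mt, push_pull_of (hp.pp 0 (by norm_num)), ← map_smul, smul_smul, smul_smul,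
      ← hsκ]
  have e1 : ∀ q : ℚ, C.act (s • mt C (p 1) (p 0)) (C.pull (p 1) (q • x)) =
      C.pull (p 0) ((2 * q) • x) := by
    intro q
    rw [act_smul', act_mt, push_pull_of (hp.pp 1 (by norm_num)), ← map_smul, smul_smul, smul_smul,
      ← hsκ]
  have z0 : ∀ q : ℚ, C.act (s • mt C (p 0) (p 1)) (C.pull (p 1) (q • x)) = 0 := by
    intro q
    rw [act_smul', act_mt, hp.push_pull_ne H (i := 1) (j := 0) (by norm_num) (by norm_num)
      (by norm_num) (htriv q), map_zero, smul_zero]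
  have z1 : ∀ q : ℚ, C.act (s • mt C (p 1) (p 0)) (C.pull (p 0) (q • x)) = 0 := by
    intro q
    rw [act_smul', act_mt, hp.push_pull_ne H (i := 0) (j := 1) (by norm_num) (by norm_num)
      (by norm_num) (htriv q), map_zero, smul_zero]
  have h1 := lift_transfer (fun (e : Equiv.Perm (Ker a V)) x => e x)
    (pact ((2 : ℚ) • (1 : Module.End ℚ ℚ))) (fun _ => rfl)
    (fun _ _ _ => rfl) (pact_one _) (pact_mul _) ι g
    ![lo Polynomial.X, up Polynomial.X] (fun i v => by
      apply Subtype.ext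
      fin_cases i
      · change C.pull (p 0) (v 0 • x) + C.pull (p 1) (v 1 • x) +
          C.act (s • mt C (p 0) (p 1)) (C.pull (p 0) (v 0 • x) + C.pull (p 1) (v 1 • x)) =
          (ι (pact _ (lo Polynomial.X) v)).1
        rw [pact_lo, act_map_add, e0, z0, add_zero]
        change _ = C.pull (p 0) (v 0 • x) + C.pull (p 1) ((v 1 + 2 * v 0) • x)
        rw [add_smul, map_add, add_assoc]
      · change C.pull (p 0) (v 0 • x) + C.pull (p 1) (v 1 • x) +
          C.act (s • mt C (p 1) (p 0)) (C.pull (p 0) (v 0 • x) + C.pull (p 1) (v 1 • x)) =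
          (ι (pact _ (up Polynomial.X) v)).1
        rw [pact_up, act_map_add, e1, z1, zero_add]
        change _ = C.pull (p 0) ((v 0 + 2 * v 1) • x) + C.pull (p 1) (v 1 • x)
        rw [add_smul, map_add]
        abel) w
  have hinj : ∀ v v' : Fin 2 → ℚ, ι v = ι v' → v = v' := by
    intro v v' hv
    have hv1 : C.pull (p 0) (v 0 • x) + C.pull (p 1) (v 1 • x) =
        C.pull (p 0) (v' 0 • x) + C.pull (p 1) (v' 1 • x) := congrArg Subtype.val hv
    have hc : ∀ q q' : ℚ, κ • q • x = κ • q' • x → q = q' := by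
      intro q q' hq
      rw [smul_smul, smul_smul] at hq
      have := smul_left_injective ℚ hx0 hq
      exact mul_left_cancel₀ hκ this
    funext i
    fin_cases i
    · have h2 := congrArg (C.push (p 0)) hv1
      rw [map_add, map_add, push_pull_of (hp.pp 0 (by norm_num)),
        push_pull_of (hp.pp 0 (by norm_num)),
        hp.push_pull_ne H (i := 1) (j := 0) (by norm_num) (by norm_num) (by norm_num) (htriv _),
        hp.push_pull_ne H (i := 1) (j := 0) (by norm_num) (by norm_num) (by norm_num) (htriv _),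
        add_zero, add_zero] at h2
      exact hc _ _ h2
    · have h2 := congrArg (C.push (p 1)) hv1
      rw [map_add, map_add, push_pull_of (hp.pp 1 (by norm_num)),
        push_pull_of (hp.pp 1 (by norm_num)),
        hp.push_pull_ne H (i := 0) (j := 1) (by norm_num) (by norm_num) (by norm_num) (htriv _),
        hp.push_pull_ne H (i := 0) (j := 1) (by norm_num) (by norm_num) (by norm_num) (htriv _),
        zero_add, zero_add] at h2
      exact hc _ _ h2
  apply hw1
  refine eq_one_of_aeval (z := 2) (by simp) fun i j => ?_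
  have h3 := entries_of_trivial ((2 : ℚ) • (1 : Module.End ℚ ℚ)) (w := w) (fun v => by
    apply hinj
    have h4 := h1 v
    rw [hg] at h4
    exact h4.symm) i j
  have h4 := aeval_two h3
  rw [map_sub, sub_eq_zero] at h4
  rw [h4]
  by_cases hij : i = j
  · subst hij; simp
  · rw [Matrix.one_apply_ne hij, Matrix.one_apply_ne hij, map_zero]

end pair

/-- **The main theorem.** -/
theorem aj_iff (a : AbelJacobi.{u, v, w} H n m)
    (hP : ∀ (S : 𝒱.Obj) (N : ℕ), S.dim = n → HasPower C n N S) :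
    AllInjective a ↔ NoFreePairs a := by
  refine ⟨fun h X E hX _ _ => ⟨FreeGroup.of 0, FreeGroup.of_ne_one 0, fun g _ => ?_⟩,
    injective_of_noFreePairs a hP⟩
  ext x
  have h1 : ∀ y : Ker a X, y.1 = 0 := fun y => h X y.1 hX y.2
  rw [h1, h1]

end Pool.Agent.V1126.BN
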