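import Pool.Agent.V1157.AK.Defs
import Mathlib.GroupTheory.FreeGroup.Basic

/-!
# Unipotent pairs of correspondences on kernels of Abel-Jacobi maps: definitions
-/

open CategoryTheory AlgebraicGeometry

universe u v w

namespace Pool.Agent.V1126.BN

open Pool.Agent.H914 Pool.Agent.H914.VarClass Pool.Agent.H914.VarClass.Obj Pool.Agent.W492.BB
  Pool.Agent.V1157.KF Pool.Agent.V1157.AK

variable {k : Type u} [Field k] {𝒱 : VarClass k} {C : TheoryData.{u, v, 0} 𝒱 ℚ} {K : Type w}
  [Field K] {H : WeilTheoryData.{u, v, w} C K} {n m : ℕ}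

/-- The kernel `N(X)` of the Abel-Jacobi map of `X`, as a set. -/
abbrev Ker (a : AbelJacobi.{u, v, w} H n m) (X : 𝒱.Obj) : Type v := {x : C.A X // InKernel a X x}

/-- For all varieties `X` of dimension `n` and all self-correspondences `E 0`, `E 1` of degree zero
of `X` whose squares act as zero on the kernel `N(X)` of the Abel-Jacobi map, the bijections
`g 0 = 1 + E 0` and `g 1 = 1 + E 1` of `N(X)` satisfy a relation `w(g 0, g 1) = 1` with `w ≠ 1`,
that is, they are not free generators of a free group. -/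
def NoFreePairs (a : AbelJacobi.{u, v, w} H n m) : Prop :=
  ∀ (X : 𝒱.Obj) (E : Fin 2 → C.A (X.prod X)), X.dim = n → (∀ i, C.Deg n (E i)) →
    (∀ i (x : Ker a X), C.act (E i) (C.act (E i) x.1) = 0) →
    ∃ w : FreeGroup (Fin 2), w ≠ 1 ∧ ∀ g : Fin 2 → Equiv.Perm (Ker a X),
      (∀ i (x : Ker a X), (g i x).1 - x.1 = C.act (E i) x.1) → FreeGroup.lift g w = 1

end Pool.Agent.V1126.BN
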