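import Mathlib

/-!
# Free groups of unipotent matrices over the complex numbers, and commutators of nilpotent pairs
-/

namespace Pool.Agent.V1126.BN

open Matrix MatrixGroups Polynomial

section transvections

variable {R : Type*} [CommRing R]

/-- lower transvection -/
def lo (x : R) : SL(2, R) := ⟨!![1, 0; x, 1], by simp [Matrix.det_fin_two]⟩

/-- upper transvection -/
def up (x : R) : SL(2, R) := ⟨!![1, x; 0, 1], by simp [Matrix.det_fin_two]⟩

theorem up_mul (a b : R) : up a * up b = up (a + b) := by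
  apply Subtype.ext
  rw [Matrix.SpecialLinearGroup.coe_mul]
  simp [up, add_comm]

theorem lo_mul (a b : R) : lo a * lo b = lo (a + b) := by
  apply Subtype.ext
  rw [Matrix.SpecialLinearGroup.coe_mul]
  simp [lo]

theorem up_zero : up (0 : R) = 1 := by
  ext i j; fin_cases i <;> fin_cases j <;> simp [up]

theorem lo_zero : lo (0 : R) = 1 := by
  ext i j; fin_cases i <;> fin_cases j <;> simp [lo]

/-- hom from the integers -/
def upHom (a : R) : Multiplicative ℤ →* SL(2, R) where
  toFun n := up ((n.toAdd : R) * a)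
  map_one' := by simp [up_zero]
  map_mul' x y := by rw [up_mul]; congr 1; push_cast [toAdd_mul]; ring

/-- hom from the integers -/
def loHom (a : R) : Multiplicative ℤ →* SL(2, R) where
  toFun n := lo ((n.toAdd : R) * a)
  map_one' := by simp [lo_zero]
  map_mul' x y := by rw [lo_mul]; congr 1; push_cast [toAdd_mul]; ring

theorem up_zpow (a : R) (n : ℤ) : up a ^ n = up ((n : R) * a) := by
  have h1 : up a = upHom a (Multiplicative.ofAdd 1) := by
    change up a = up _
    simp
  rw [h1, ← map_zpow]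
  change up _ = up _
  congr 2
  simp

theorem lo_zpow (a : R) (n : ℤ) : lo a ^ n = lo ((n : R) * a) := by
  have h1 : lo a = loHom a (Multiplicative.ofAdd 1) := by
    change lo a = lo _
    simp
  rw [h1, ← map_zpow]
  change lo _ = lo _
  congr 2
  simp

end transvections

/-- Sanov's theorem over the complex numbers. -/
theorem sanov (z : ℂ) (hz : 2 ≤ ‖z‖) : Function.Injective (FreeGroup.lift ![lo z, up z]) := by
  classical
  let θ : SL(2, ℂ) →* ((Fin 2 → ℂ) ≃ₗ[ℂ] (Fin 2 → ℂ)) := Matrix.SpecialLinearGroup.toLin'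
  let H : Fin 2 → Type := fun _ => FreeGroup Unit
  let f : ∀ i, H i →* ((Fin 2 → ℂ) ≃ₗ[ℂ] (Fin 2 → ℂ)) := fun i =>
    FreeGroup.lift fun _ => θ (![lo z, up z] i)
  let Y : Fin 2 → Set (Fin 2 → ℂ) := ![{v | ‖v 0‖ < ‖v 1‖}, {v | ‖v 1‖ < ‖v 0‖}]
  have key : Function.Injective (Monoid.CoprodI.lift f) := by
    apply Monoid.CoprodI.lift_injective_of_ping_pong f _ Y
    · intro i
      fin_cases i
      · exact ⟨![0, 1], by simp [Y]⟩
      · exact ⟨![1, 0], by simp [Y]⟩
    · intro i j hij
      fin_cases i <;> fin_cases j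
      · exact absurd rfl hij
      · refine Set.disjoint_left.mpr ?_
        intro v hv hv'
        simp only [Y, Fin.zero_eta, Fin.mk_one, Matrix.cons_val_zero, Matrix.cons_val_one,
          Set.mem_ofPred_eq] at hv hv'
        linarith
      · refine Set.disjoint_left.mpr ?_
        intro v hv hv'
        simp only [Y, Fin.zero_eta, Fin.mk_one, Matrix.cons_val_zero, Matrix.cons_val_one,
          Set.mem_ofPred_eq] at hv hv'
        linarith
      · exact absurd rfl hij
    · intro i j hij
      refine FreeGroup.freeGroupUnitEquivInt.forall_congr_left.mpr ?_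
      intro n hne1
      have hn : n ≠ 0 := by
        rintro rfl
        apply hne1
        simp [H, FreeGroup.freeGroupUnitEquivInt]
      have hf : f i (FreeGroup.freeGroupUnitEquivInt.symm n) = θ ((![lo z, up z] i) ^ n) := by
        change FreeGroup.lift (fun _ => θ (![lo z, up z] i)) (FreeGroup.of () ^ n) = _
        simp only [map_zpow, FreeGroup.lift_apply_of]
      rw [hf]
      rintro _ ⟨v, hv, rfl⟩
      have hn1 : (1 : ℝ) ≤ ‖(n : ℂ)‖ := by
        rw [Complex.norm_intCast]
        exact_mod_cast Int.one_le_abs hn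
      have hnz : 2 ≤ ‖(n : ℂ) * z‖ := by
        rw [norm_mul]
        nlinarith
      fin_cases i <;> fin_cases j
      · exact absurd rfl hij
      · simp only [Y, Fin.zero_eta, Fin.mk_one, Matrix.cons_val_zero, Matrix.cons_val_one,
          Set.mem_ofPred_eq, lo_zpow] at hv ⊢
        have h0 : (θ (lo (n * z)) • v) 0 = v 0 := by
          change ((Matrix.SpecialLinearGroup.toLin' (lo (n * z))) v) 0 = _
          rw [Matrix.SpecialLinearGroup.toLin'_apply]
          simp [lo, Matrix.toLin'_apply, Matrix.mulVec, dotProduct, Fin.sum_univ_two]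
        have h1 : (θ (lo (n * z)) • v) 1 = n * z * v 0 + v 1 := by
          change ((Matrix.SpecialLinearGroup.toLin' (lo (n * z))) v) 1 = _
          rw [Matrix.SpecialLinearGroup.toLin'_apply]
          simp [lo, Matrix.toLin'_apply, Matrix.mulVec, dotProduct, Fin.sum_univ_two]
        rw [h0, h1]
        have h2 : 2 * ‖v 0‖ ≤ ‖n * z * v 0‖ := by
          rw [norm_mul]
          exact mul_le_mul_of_nonneg_right hnz (norm_nonneg _)
        have h3 : ‖n * z * v 0‖ ≤ ‖n * z * v 0 + v 1‖ + ‖v 1‖ := by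
          have := norm_sub_le (n * z * v 0 + v 1) (v 1)
          simpa using this
        linarith
      · simp only [Y, Fin.zero_eta, Fin.mk_one, Matrix.cons_val_zero, Matrix.cons_val_one,
          Set.mem_ofPred_eq, up_zpow] at hv ⊢
        have h0 : (θ (up (n * z)) • v) 0 = v 0 + n * z * v 1 := by
          change ((Matrix.SpecialLinearGroup.toLin' (up (n * z))) v) 0 = _
          rw [Matrix.SpecialLinearGroup.toLin'_apply]
          simp [up, Matrix.toLin'_apply, Matrix.mulVec, dotProduct, Fin.sum_univ_two]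
        have h1 : (θ (up (n * z)) • v) 1 = v 1 := by
          change ((Matrix.SpecialLinearGroup.toLin' (up (n * z))) v) 1 = _
          rw [Matrix.SpecialLinearGroup.toLin'_apply]
          simp [up, Matrix.toLin'_apply, Matrix.mulVec, dotProduct, Fin.sum_univ_two]
        rw [h0, h1]
        have h2 : 2 * ‖v 1‖ ≤ ‖n * z * v 1‖ := by
          rw [norm_mul]
          exact mul_le_mul_of_nonneg_right hnz (norm_nonneg _)
        have h3 : ‖n * z * v 1‖ ≤ ‖v 0 + n * z * v 1‖ + ‖v 0‖ := by
          have := norm_sub_le (v 0 + n * z * v 1) (v 0)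
          simpa using this
        linarith
      · exact absurd rfl hij
    · right
      refine ⟨0, ?_⟩
      change 3 ≤ Cardinal.mk (FreeGroup Unit)
      rw [FreeGroup.freeGroupUnitEquivInt.cardinal_eq, Cardinal.mk_denumerable]
      exact Cardinal.natCast_le_aleph0
  have hcomp : (θ.comp (FreeGroup.lift ![lo z, up z])) =
      (Monoid.CoprodI.lift f).comp (@freeGroupEquivCoprodI (Fin 2)).toMonoidHom := by
    ext1 i
    simp [f, H]
  have hinj : Function.Injective (θ.comp (FreeGroup.lift ![lo z, up z])) := by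
    rw [hcomp, MonoidHom.coe_comp]
    exact key.comp (MulEquiv.injective freeGroupEquivCoprodI)
  intro x y hxy
  apply hinj
  simp [hxy]

/-- The universal matrix of a word. -/
noncomputable def mw (w : FreeGroup (Fin 2)) : SL(2, ℚ[X]) :=
  FreeGroup.lift ![lo (X : ℚ[X]), up (X : ℚ[X])] w

/-- If the universal matrix of `w` becomes the unit matrix at a complex number of absolute value at
least two, then `w = 1`. -/
theorem eq_one_of_aeval {w : FreeGroup (Fin 2)} {z : ℂ} (hz : 2 ≤ ‖z‖)
    (h : ∀ i j, aeval z ((mw w : Matrix (Fin 2) (Fin 2) ℚ[X]) i j) =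
      (1 : Matrix (Fin 2) (Fin 2) ℂ) i j) : w = 1 := by
  apply sanov z hz
  rw [map_one]
  have h1 : (Matrix.SpecialLinearGroup.map ((aeval z : ℚ[X] →ₐ[ℚ] ℂ) : ℚ[X] →+* ℂ)).comp
      (FreeGroup.lift ![lo (X : ℚ[X]), up (X : ℚ[X])]) = FreeGroup.lift ![lo z, up z] := by
    apply FreeGroup.ext_hom
    intro i
    fin_cases i
    · ext i j
      rw [MonoidHom.comp_apply, Matrix.SpecialLinearGroup.map_apply_coe, RingHom.mapMatrix_apply,
        Matrix.map_apply, FreeGroup.lift_apply_of, FreeGroup.lift_apply_of]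
      fin_cases i <;> fin_cases j <;> simp [lo]
    · ext i j
      rw [MonoidHom.comp_apply, Matrix.SpecialLinearGroup.map_apply_coe, RingHom.mapMatrix_apply,
        Matrix.map_apply, FreeGroup.lift_apply_of, FreeGroup.lift_apply_of]
      fin_cases i <;> fin_cases j <;> simp [up]
  rw [← h1]
  ext i j
  rw [MonoidHom.comp_apply, Matrix.SpecialLinearGroup.map_apply_coe, RingHom.mapMatrix_apply,
    Matrix.map_apply]
  exact h i j

/-- An element which is not nilpotent has a generalised nonzero complex eigenvalue. -/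
theorem exists_root {E : Type*} [Ring E] [Algebra ℚ E] {T : E} (hT : ¬ IsNilpotent T) :
    ∃ z : ℂ, z ≠ 0 ∧ ∀ f : ℚ[X], aeval T f = 0 → aeval z f = 0 := by
  by_contra hcon
  push Not at hcon
  let I : Ideal ℚ[X] := RingHom.ker ((aeval T : ℚ[X] →ₐ[ℚ] E) : ℚ[X] →+* E)
  have hmem : ∀ f : ℚ[X], f ∈ I ↔ aeval T f = 0 := fun f => RingHom.mem_ker
  obtain ⟨μ, hμ⟩ := (IsPrincipalIdealRing.principal I).principal
  have hμI : aeval T μ = 0 := by
    rw [← hmem, hμ]
    exact Submodule.mem_span_singleton_self μ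
  have hdvd : ∀ f : ℚ[X], aeval T f = 0 → μ ∣ f := by
    intro f hf
    rw [← hmem, hμ] at hf
    exact Ideal.mem_span_singleton.1 hf
  have hroot : ∀ z : ℂ, aeval z μ = 0 → z = 0 := by
    intro z hz
    by_contra hz0
    obtain ⟨f, hf, hne⟩ := hcon z hz0
    obtain ⟨q, rfl⟩ := hdvd f hf
    apply hne
    rw [map_mul, hz, zero_mul]
  have hμ0 : μ ≠ 0 := by
    rintro rfl
    have := hroot 1 (by simp)
    exact one_ne_zero this
  obtain ⟨ν, hν, hnd⟩ := exists_eq_pow_rootMultiplicity_mul_and_not_dvd μ hμ0 0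
  have hνd : ν.degree = 0 := by
    by_contra hd
    have hd' : (ν.map (algebraMap ℚ ℂ)).degree ≠ 0 := by
      rwa [degree_map_eq_of_injective (algebraMap ℚ ℂ).injective]
    obtain ⟨z, hz⟩ := IsAlgClosed.exists_root _ hd'
    have hz1 : aeval z ν = 0 := by
      rw [aeval_def, ← eval_map]; exact hz
    have hz2 : z = 0 := hroot z (by rw [hν, map_mul, hz1, mul_zero])
    apply hnd
    rw [dvd_iff_isRoot]
    rw [hz2] at hz1
    have h3 : (algebraMap ℚ ℂ) (eval 0 ν) = 0 := by
      rw [← hz1, aeval_def, eval₂_at_zero, coeff_zero_eq_eval_zero]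
    exact (map_eq_zero _).1 h3
  apply hT
  refine ⟨rootMultiplicity 0 μ, ?_⟩
  obtain ⟨q, hq⟩ : ∃ q : ℚ, ν = Polynomial.C q := ⟨_, eq_C_of_degree_eq_zero hνd⟩
  have hq0 : q ≠ 0 := by
    rintro rfl
    rw [hq, map_zero, degree_zero] at hνd
    exact absurd hνd (by simp)
  have h4 : q • T ^ rootMultiplicity 0 μ = 0 := by
    have h5 := hμI
    rw [hν, hq, map_mul, aeval_C, ← Algebra.commutes, ← Algebra.smul_def, map_pow] at h5
    simpa using h5
  rw [← one_smul ℚ (T ^ rootMultiplicity 0 μ), ← inv_mul_cancel₀ hq0, mul_smul, h4, smul_zero]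

/-- The same after scaling. -/
theorem exists_scaled_root {E : Type*} [Ring E] [Algebra ℚ E] {T : E} (hT : ¬ IsNilpotent T) :
    ∃ (s : ℚ) (z : ℂ), 2 ≤ ‖z‖ ∧ ∀ f : ℚ[X], aeval (s • T) f = 0 → aeval z f = 0 := by
  obtain ⟨z, hz, h⟩ := exists_root hT
  obtain ⟨n, hn⟩ := exists_nat_gt (2 / ‖z‖)
  have hz' : 0 < ‖z‖ := norm_pos_iff.2 hz
  refine ⟨n, (n : ℂ) * z, ?_, ?_⟩
  · rw [norm_mul, Complex.norm_natCast]
    rw [div_lt_iff₀ hz'] at hn
    exact hn.le
  · intro f hf
    have h1 := h (f.comp (Polynomial.C (n : ℚ) * X)) (by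
      rw [aeval_comp, map_mul, aeval_C, aeval_X, ← Algebra.smul_def]
      exact hf)
    rw [aeval_comp, map_mul, aeval_C, aeval_X] at h1
    simpa using h1

end Pool.Agent.V1126.BN
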