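import Pool.Agent.V1126.BN.CmpDefs
import Pool.Agent.V1126.BN.AJ

/-!
# Comparison of the kernels of two Abel-Jacobi maps
-/

open CategoryTheory AlgebraicGeometry

universe u v w

namespace Pool.Agent.V1126.BN

open Pool.Agent.H914 Pool.Agent.H914.VarClass Pool.Agent.H914.VarClass.Obj Pool.Agent.W492.BB
  Pool.Agent.W550.Corr Pool.Agent.TH133 Pool.Agent.Y148.BB Pool.Agent.V1157.KF
  Pool.Agent.V1157.AK
open Pool.Agent.V1157.RC (act_smul' push_pull_of)

set_option linter.unusedSectionVars false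

variable {k : Type u} [Field k] {𝒱 : VarClass k} {C : TheoryData.{u, v, 0} 𝒱 ℚ}
  [hC : IsChowProj C] {K : Type w} [Field K] {H : WeilTheoryData.{u, v, w} C K}
  [hH : IsWeilProj H] {S V X Y : 𝒱.Obj} {n m : ℕ}

include hC hH

lemma kernel_sub (a : AbelJacobi.{u, v, w} H n m) {x y : C.A X} (hx : InKernel a X x)
    (hy : InKernel a X y) : InKernel a X (x - y) := by
  have h := kernel_add a hx (kernel_smul a (-1) hy)
  rwa [neg_one_smul, ← sub_eq_add_neg] at h

lemma kernel_zero (a : AbelJacobi.{u, v, w} H n m) {x : C.A X} (hx : InKernel a X x) :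
    InKernel a X 0 := by
  have h := kernel_smul a 0 hx
  rwa [zero_smul] at h

lemma kernel_of_smul (a : AbelJacobi.{u, v, w} H n m) {x : C.A X} {q : ℚ} (hq : q ≠ 0)
    (hx : InKernel a X (q • x)) : InKernel a X x := by
  have h := kernel_smul a q⁻¹ hx
  rwa [smul_smul, inv_mul_cancel₀ hq, one_smul] at h

lemma kernel_sum (a : AbelJacobi.{u, v, w} H n m) {ι : Type*} (s : Finset ι) (f : ι → C.A X)
    (h0 : InKernel a X 0) (hf : ∀ i ∈ s, InKernel a X (f i)) : InKernel a X (∑ i ∈ s, f i) := by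
  classical
  induction s using Finset.induction_on with
  | empty => rwa [Finset.sum_empty]
  | insert i s hi ih =>
    rw [Finset.sum_insert hi]
    exact kernel_add a (hf i (Finset.mem_insert_self i s))
      (ih fun j hj => hf j (Finset.mem_insert_of_mem hj))

lemma kernel_push (a : AbelJacobi.{u, v, w} H n m) (hS : S.dim = n) (hV : V.dim = n)
    (p : V ⟶ S) {x : C.A V} (hx : InKernel a V x) : InKernel a S (C.push p x) :=
  ((kernel_fam a).push p hV hS ⟨hV, hx⟩).2

lemma kernel_pull (a : AbelJacobi.{u, v, w} H n m) (hS : S.dim = n) (hV : V.dim = n)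
    (p : V ⟶ S) {x : C.A S} (hx : InKernel a S x) : InKernel a V (C.pull p x) :=
  ((kernel_fam a).pull p hV hS ⟨hS, hx⟩).2

lemma le_of_bounded (a b : AbelJacobi.{u, v, w} H n m)
    (hP : ∀ (S : 𝒱.Obj) (N : ℕ), S.dim = n → HasPower C n N S) {D : ℕ} (h : BoundedMod a b D) :
    KernelLe a b := by
  intro S x hS hx
  obtain ⟨V, p, β, c, κ, hp⟩ := exists_pw hS (hP S (D + 1) hS)
  obtain ⟨r, hr0, hr⟩ := h V (fun i => C.pull (p i) x) hp.dimV
    (fun i => kernel_pull a hS hp.dimV (p i) hx)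
  obtain ⟨j, hj⟩ : ∃ j, r j ≠ 0 := by
    by_contra hcon
    push Not at hcon
    exact hr0 (funext hcon)
  have h1 := kernel_push b hS hp.dimV (p j) hr
  rw [map_sum, Finset.sum_eq_single j] at h1
  · rw [← map_smul, push_pull_of (hp.pp j j.2), smul_smul] at h1
    exact kernel_of_smul b (mul_ne_zero hp.hκ hj) h1
  · intro i _ hij
    rw [← map_smul, hp.push_pull_ne H (i := i) (j := j) i.2 j.2 (fun e => hij (Fin.ext e))
      (kernel_smul a (r i) hx).1]
  · intro hj'
    exact absurd (Finset.mem_univ j) hj'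

lemma le_of_commuting (a b : AbelJacobi.{u, v, w} H n m)
    (hP : ∀ (S : 𝒱.Obj) (N : ℕ), S.dim = n → HasPower C n N S) (h : CommutingMod a b) :
    KernelLe a b := by
  intro S x hS hx
  obtain ⟨V, p, β, c, κ, hp⟩ := exists_pw hS (hP S 2 hS)
  have h1 := h V (mt C (p 1) (p 0)) (mt C (p 0) (p 1)) (C.pull (p 0) x) hp.dimV
    (mt_mem hp.dimS hp.dimV _ _) (mt_mem hp.dimS hp.dimV _ _)
    (fun y hy => ⟨kernel_mt a hS hp.dimV _ _ hy, kernel_mt a hS hp.dimV _ _ hy⟩)
    (kernel_pull a hS hp.dimV (p 0) hx)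
  have h2 := kernel_push b hS hp.dimV (p 0) h1
  rw [act_mt, act_mt, act_mt, act_mt, push_pull_of (hp.pp 0 (by norm_num)),
    push_pull_of (hp.pp 1 (by norm_num)),
    hp.push_pull_ne H (i := 0) (j := 1) (by norm_num) (by norm_num) (by norm_num) hx.1,
    map_zero, map_zero, map_zero, sub_zero, push_pull_of (hp.pp 0 (by norm_num))] at h2
  exact kernel_of_smul b hp.hκ (kernel_of_smul b hp.hκ (kernel_of_smul b hp.hκ h2))

lemma le_of_noFreePairs (a b : AbelJacobi.{u, v, w} H n m)
    (hP : ∀ (S : 𝒱.Obj) (N : ℕ), S.dim = n → HasPower C n N S) (h : NoFreePairsMod a b) :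
    KernelLe a b := by
  intro S x hS hx
  by_contra hx0
  obtain ⟨V, p, β, c, κ, hp⟩ := exists_pw hS (hP S 2 hS)
  have hκ := hp.hκ
  set s : ℚ := 2 / κ with hs
  have hsκ : s * κ = 2 := by rw [hs]; field_simp
  have hsp := fun i => ee_spec a hp s i
  obtain ⟨w, hw1, hw⟩ := h V (ee C p s) hp.dimV (fun i => (hsp i).1)
    (fun i x => (hsp i).2.2 x.1 x.2)
  let g : Fin 2 → Equiv.Perm (Ker a V) := fun i => uperm a (ee C p s i) (hsp i).2.1 (hsp i).2.2
  have hg := hw g (fun i x => by
    change x.1 + C.act (ee C p s i) x.1 - x.1 = _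
    rw [add_sub_cancel_left])
  have hker : ∀ (i : ℕ) (q : ℚ), InKernel a V (C.pull (p i) (q • x)) := fun i q =>
    kernel_pull a hS hp.dimV (p i) (kernel_smul a q hx)
  let ι : (Fin 2 → ℚ) → Ker a V := fun v =>
    ⟨C.pull (p 0) (v 0 • x) + C.pull (p 1) (v 1 • x), kernel_add a (hker 0 _) (hker 1 _)⟩
  have htriv : ∀ q : ℚ, HomTriv H m (q • x) := fun q => (kernel_smul a q hx).1
  have e0 : ∀ q : ℚ, C.act (s • mt C (p 0) (p 1)) (C.pull (p 0) (q • x)) =
      C.pull (p 1) ((2 * q) • x) := by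
    intro q
    rw [act_smul', act_mt, push_pull_of (hp.pp 0 (by norm_num)), ← map_smul, smul_smul, smul_smul,
      ← hsκ]
  have e1 : ∀ q : ℚ, C.act (s • mt C (p 1) (p 0)) (C.pull (p 1) (q • x)) =
      C.pull (p 0) ((2 * q) • x) := by
    intro q
    rw [act_smul', act_mt, push_pull_of (hp.pp 1 (by norm_num)), ← map_smul, smul_smul, smul_smul,
      ← hsκ]
  have z0 : ∀ q : ℚ, C.act (s • mt C (p 0) (p 1)) (C.pull (p 1) (q • x)) = 0 := by
    intro q
    rw [act_smul', act_mt, hp.push_pull_ne H (i := 1) (j := 0) (by norm_num) (by norm_num)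
      (by norm_num) (htriv q), map_zero, smul_zero]
  have z1 : ∀ q : ℚ, C.act (s • mt C (p 1) (p 0)) (C.pull (p 0) (q • x)) = 0 := by
    intro q
    rw [act_smul', act_mt, hp.push_pull_ne H (i := 0) (j := 1) (by norm_num) (by norm_num)
      (by norm_num) (htriv q), map_zero, smul_zero]
  have h1 := lift_transfer (fun (e : Equiv.Perm (Ker a V)) x => e x)
    (pact ((2 : ℚ) • (1 : Module.End ℚ ℚ))) (fun _ => rfl)
    (fun _ _ _ => rfl) (pact_one _) (pact_mul _) ι g
    ![lo Polynomial.X, up Polynomial.X] (fun i v => by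
      apply Subtype.ext
      fin_cases i
      · change C.pull (p 0) (v 0 • x) + C.pull (p 1) (v 1 • x) +
          C.act (s • mt C (p 0) (p 1)) (C.pull (p 0) (v 0 • x) + C.pull (p 1) (v 1 • x)) =
          (ι (pact _ (lo Polynomial.X) v)).1
        rw [pact_lo, act_map_add, e0, z0, add_zero]
        change _ = C.pull (p 0) (v 0 • x) + C.pull (p 1) ((v 1 + 2 * v 0) • x)
        rw [add_smul, map_add, add_assoc]
      · change C.pull (p 0) (v 0 • x) + C.pull (p 1) (v 1 • x) +
          C.act (s • mt C (p 1) (p 0)) (C.pull (p 0) (v 0 • x) + C.pull (p 1) (v 1 • x)) =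
          (ι (pact _ (up Polynomial.X) v)).1
        rw [pact_up, act_map_add, e1, z1, zero_add]
        change _ = C.pull (p 0) ((v 0 + 2 * v 1) • x) + C.pull (p 1) (v 1 • x)
        rw [add_smul, map_add]
        abel) w
  have hinj : ∀ v v' : Fin 2 → ℚ, InKernel b V ((ι v).1 - (ι v').1) → v = v' := by
    intro v v' hv
    have hv1 : (ι v).1 - (ι v').1 = C.pull (p 0) ((v 0 - v' 0) • x) +
        C.pull (p 1) ((v 1 - v' 1) • x) := by
      change C.pull (p 0) (v 0 • x) + C.pull (p 1) (v 1 • x) -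
        (C.pull (p 0) (v' 0 • x) + C.pull (p 1) (v' 1 • x)) = _
      rw [sub_smul, sub_smul, map_sub, map_sub]
      abel
    rw [hv1] at hv
    have hc : ∀ q : ℚ, InKernel b S (κ • q • x) → q = 0 := by
      intro q hq
      by_contra hq0
      exact hx0 (kernel_of_smul b hq0 (kernel_of_smul b hκ hq))
    funext i
    fin_cases i
    · have h2 := kernel_push b hS hp.dimV (p 0) hv
      rw [map_add, push_pull_of (hp.pp 0 (by norm_num)),
        hp.push_pull_ne H (i := 1) (j := 0) (by norm_num) (by norm_num) (by norm_num) (htriv _),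
        add_zero] at h2
      exact sub_eq_zero.1 (hc _ h2)
    · have h2 := kernel_push b hS hp.dimV (p 1) hv
      rw [map_add, push_pull_of (hp.pp 1 (by norm_num)),
        hp.push_pull_ne H (i := 0) (j := 1) (by norm_num) (by norm_num) (by norm_num) (htriv _),
        zero_add] at h2
      exact sub_eq_zero.1 (hc _ h2)
  apply hw1
  refine eq_one_of_aeval (z := 2) (by simp) fun i j => ?_
  have h3 := entries_of_trivial ((2 : ℚ) • (1 : Module.End ℚ ℚ)) (w := w) (fun v => by
    apply hinj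
    have h4 : (FreeGroup.lift g w) (ι v) = ι (pact ((2 : ℚ) • (1 : Module.End ℚ ℚ)) (mw w) v) :=
      h1 v
    have h5 := hg (ι v)
    rw [h4] at h5
    exact h5) i j
  have h4 := aeval_two h3
  rw [map_sub, sub_eq_zero] at h4
  rw [h4]
  by_cases hij : i = j
  · subst hij; simp
  · rw [Matrix.one_apply_ne hij, Matrix.one_apply_ne hij, map_zero]

/-- **The comparison theorem.** -/
theorem cmp_tfae (a b : AbelJacobi.{u, v, w} H n m)
    (hP : ∀ (S : 𝒱.Obj) (N : ℕ), S.dim = n → HasPower C n N S) :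
    List.TFAE [KernelLe a b, ∃ D, BoundedMod a b D, CommutingMod a b, NoFreePairsMod a b] := by
  tfae_have 1 → 2 := fun h => ⟨0, fun X x hX hx => ⟨fun _ => 1, fun e => by
    have := congrFun e 0
    exact one_ne_zero this, by
      have h0 := h X (x 0) hX (hx 0)
      simpa using h0⟩⟩
  tfae_have 2 → 1 := fun ⟨D, hD⟩ => le_of_bounded a b hP hD
  tfae_have 1 → 3 := fun h X A B x hX _ _ hAB hx =>
    h X _ hX (kernel_sub a (hAB _ (hAB _ hx).2).1 (hAB _ (hAB _ hx).1).2)
  tfae_have 3 → 1 := le_of_commuting a b hP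
  tfae_have 1 → 4 := fun h X E hX _ _ => ⟨FreeGroup.of 0, FreeGroup.of_ne_one 0, fun g _ x =>
    h X _ hX (kernel_sub a (FreeGroup.lift g (FreeGroup.of 0) x).2 x.2)⟩
  tfae_have 4 → 1 := le_of_noFreePairs a b hP
  tfae_finish

/-- If the second Abel-Jacobi maps are injective, the comparison is injectivity of the first. -/
theorem le_iff_injective (a b : AbelJacobi.{u, v, w} H n m) (hb : AllInjective b) :
    KernelLe a b ↔ AllInjective a := by
  constructor
  · intro h X x hX hx
    exact hb X x hX (h X x hX hx)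
  · intro h X x hX hx
    have h0 := h X x hX hx
    subst h0
    refine ⟨hx.1, ?_⟩
    have h1 := b.φ_smul 0 hx.1
    rwa [zero_smul, zero_smul] at h1

end Pool.Agent.V1126.BN
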