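import Pool.Agent.V1126.BN.AJDefs

/-!
# Comparison of the kernels of two Abel-Jacobi maps: definitions
-/

open CategoryTheory AlgebraicGeometry

universe u v w

namespace Pool.Agent.V1126.BN

open Pool.Agent.H914 Pool.Agent.H914.VarClass Pool.Agent.H914.VarClass.Obj Pool.Agent.W492.BB
  Pool.Agent.V1157.KF Pool.Agent.V1157.AK

variable {k : Type u} [Field k] {𝒱 : VarClass k} {C : TheoryData.{u, v, 0} 𝒱 ℚ} {K : Type w}
  [Field K] {H : WeilTheoryData.{u, v, w} C K} {n m : ℕ}

/-- For all varieties `X` of dimension `n` the kernel `N(X)` of the first Abel-Jacobi map is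
contained in the kernel `N'(X)` of the second one. -/
def KernelLe (a b : AbelJacobi.{u, v, w} H n m) : Prop :=
  ∀ (X : 𝒱.Obj) (x : C.A X), X.dim = n → InKernel a X x → InKernel b X x

/-- For all varieties `X` of dimension `n` the image of `N(X)` modulo `N'(X)` has dimension at most
`D`: any `D + 1` elements of `N(X)` are linearly dependent modulo `N'(X)`. -/
def BoundedMod (a b : AbelJacobi.{u, v, w} H n m) (D : ℕ) : Prop :=
  ∀ (X : 𝒱.Obj) (x : Fin (D + 1) → C.A X), X.dim = n → (∀ i, InKernel a X (x i)) →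
    ∃ c : Fin (D + 1) → ℚ, c ≠ 0 ∧ InKernel b X (∑ i, c i • x i)

/-- The actions on `N(X)` of any two self-correspondences of degree zero (which map `N(X)` to itself)
commute modulo `N'(X)`. -/
def CommutingMod (a b : AbelJacobi.{u, v, w} H n m) : Prop :=
  ∀ (X : 𝒱.Obj) (A B : C.A (X.prod X)) (x : C.A X), X.dim = n → C.Deg n A → C.Deg n B →
    (∀ y, InKernel a X y → InKernel a X (C.act A y) ∧ InKernel a X (C.act B y)) →
    InKernel a X x → InKernel b X (C.act A (C.act B x) - C.act B (C.act A x))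

/-- For all varieties `X` of dimension `n` and all self-correspondences `E 0`, `E 1` of degree zero
of `X` whose squares act as zero on `N(X)`, there is an element `w ≠ 1` of the free group such that
the bijections `g 0 = 1 + E 0` and `g 1 = 1 + E 1` of `N(X)` satisfy the relation
`w(g 0, g 1) = 1` modulo `N'(X)`. -/
def NoFreePairsMod (a b : AbelJacobi.{u, v, w} H n m) : Prop :=
  ∀ (X : 𝒱.Obj) (E : Fin 2 → C.A (X.prod X)), X.dim = n → (∀ i, C.Deg n (E i)) →
    (∀ i (x : Ker a X), C.act (E i) (C.act (E i) x.1) = 0) →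
    ∃ w : FreeGroup (Fin 2), w ≠ 1 ∧ ∀ g : Fin 2 → Equiv.Perm (Ker a X),
      (∀ i (x : Ker a X), (g i x).1 - x.1 = C.act (E i) x.1) →
      ∀ x : Ker a X, InKernel b X ((FreeGroup.lift g w x).1 - x.1)

end Pool.Agent.V1126.BN
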