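import Pool.Agent.V1126.BN.WordDefs
import Pool.Agent.V1126.BN.Nil
import Pool.Agent.V1157.PI.Final

/-!
# Words in unipotent self-correspondences modulo prime adequate relations
-/

open CategoryTheory AlgebraicGeometry

universe u v w

namespace Pool.Agent.V1126.BN

open Pool.Agent.H914 Pool.Agent.H914.VarClass Pool.Agent.H914.VarClass.Obj Pool.Agent.W492.BB
  Pool.Agent.W550.Corr Pool.Agent.TH133 Pool.Agent.Y148.BB Pool.Agent.TH829.Prime
  Pool.Agent.V1157.RC Pool.Agent.V1157.PI

set_option linter.unusedSectionVars false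

section alg

open Polynomial

variable {M : Type*} [AddCommGroup M] [Module ℚ M]

/-- If `f(s T) x` lies in the subspace `N` for all rational `s`, then so do all homogeneous
parts. -/
theorem coeff_mem (N : Submodule ℚ M) (T : Module.End ℚ M) (x : M) (f : ℚ[X])
    (h : ∀ s : ℚ, aeval (s • T) f x ∈ N) (j : ℕ) : f.coeff j • (T ^ j) x ∈ N := by
  rw [← Submodule.Quotient.mk_eq_zero, ← Module.forall_dual_apply_eq_zero_iff ℚ]
  intro φ
  by_cases hj : j ≤ f.natDegree
  swap
  · rw [coeff_eq_zero_of_natDegree_lt (not_le.1 hj), zero_smul, Submodule.Quotient.mk_zero,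
      map_zero]
  let y : ℕ → M ⧸ N := fun i => Submodule.Quotient.mk (f.coeff i • (T ^ i) x)
  let g : ℚ[X] := ∑ i ∈ Finset.range (f.natDegree + 1), monomial i (φ (y i))
  have hg : g = 0 := by
    refine Polynomial.funext fun s => ?_
    have h1 := (Submodule.Quotient.mk_eq_zero N).2 (h s)
    have h2 := congrArg φ h1
    have h3 : aeval (s • T) f x =
        ∑ i ∈ Finset.range (f.natDegree + 1), s ^ i • (f.coeff i • (T ^ i) x) := by
      rw [aeval_eq_sum_range, LinearMap.sum_apply]
      refine Finset.sum_congr rfl fun i _ => ?_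
      rw [LinearMap.smul_apply, _root_.smul_pow, LinearMap.smul_apply, smul_comm]
    rw [h3, ← Submodule.mkQ_apply, map_sum, map_sum, map_zero] at h2
    rw [eval_zero, ← h2, eval_finsetSum]
    refine Finset.sum_congr rfl fun i _ => ?_
    rw [eval_monomial, map_smul, map_smul φ (s ^ i), smul_eq_mul, mul_comm]
    rfl
  have h2 := congrArg (fun q : ℚ[X] => q.coeff j) hg
  simp only [coeff_zero] at h2
  rw [finsetSum_coeff, Finset.sum_eq_single j] at h2
  · rwa [coeff_monomial, if_pos rfl] at h2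
  · intro i _ hi
    rw [coeff_monomial, if_neg hi]
  · intro hn
    exact absurd (Finset.mem_range.2 (Nat.lt_succ_of_le hj)) hn

theorem aeval_mem (N : Submodule ℚ M) (T : Module.End ℚ M) (hT : ∀ x ∈ N, T x ∈ N) (f : ℚ[X])
    {x : M} (hx : x ∈ N) : aeval T f x ∈ N := by
  rw [aeval_eq_sum_range, LinearMap.sum_apply]
  have hpow : ∀ i : ℕ, (T ^ i) x ∈ N := by
    intro i
    induction i with
    | zero => exact hx
    | succ i ih => rw [pow_succ', Module.End.mul_apply]; exact hT _ ih
  refine Submodule.sum_mem _ fun i _ => ?_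
  rw [LinearMap.smul_apply]
  exact Submodule.smul_mem _ _ (hpow i)

theorem lo_inv {R : Type*} [CommRing R] (x : R) : (lo x)⁻¹ = lo (-x) := by
  apply inv_eq_of_mul_eq_one_right
  rw [lo_mul, add_neg_cancel, lo_zero]

theorem up_inv {R : Type*} [CommRing R] (x : R) : (up x)⁻¹ = up (-x) := by
  apply inv_eq_of_mul_eq_one_right
  rw [up_mul, add_neg_cancel, up_zero]

theorem pact_lo_inv (T : Module.End ℚ M) (v : Fin 2 → M) :
    pact T (lo X)⁻¹ v = ![v 0, v 1 - T (v 0)] := by
  rw [lo_inv]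
  funext i
  fin_cases i
  · simp [pact, lo]
  · simp [pact, lo]; abel

theorem pact_up_inv (T : Module.End ℚ M) (v : Fin 2 → M) :
    pact T (up X)⁻¹ v = ![v 0 - T (v 1), v 1] := by
  rw [up_inv]
  funext i
  fin_cases i
  · simp [pact, up]; abel
  · simp [pact, up]

theorem mw_eq_prod (w : FreeGroup (Fin 2)) :
    mw w = (w.toWord.map fun x => cond x.2 ((![lo (X : ℚ[X]), up X] : Fin 2 → _) x.1)
      ((![lo (X : ℚ[X]), up X] : Fin 2 → _) x.1)⁻¹).prod := by
  conv_lhs => rw [mw, ← FreeGroup.mk_toWord (x := w), FreeGroup.lift_mk]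

/-- A nontrivial word has a nonzero entry minus the entry of the unit matrix. -/
theorem exists_entry {w : FreeGroup (Fin 2)} (hw : w ≠ 1) :
    ∃ i j : Fin 2, (mw w : Matrix (Fin 2) (Fin 2) ℚ[X]) i j -
      (1 : Matrix (Fin 2) (Fin 2) ℚ[X]) i j ≠ 0 := by
  by_contra hcon
  push Not at hcon
  apply hw
  refine eq_one_of_aeval (z := 2) (by simp) fun i j => ?_
  rw [sub_eq_zero.1 (hcon i j)]
  by_cases hij : i = j
  · subst hij; simp
  · rw [Matrix.one_apply_ne hij, Matrix.one_apply_ne hij, map_zero]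

end alg

variable {k : Type u} [Field k] {𝒱 : VarClass k} {C : TheoryData.{u, v, 0} 𝒱 ℚ}
  [hC : IsChowProj C] {X Y Q : 𝒱.Obj}

include hC

lemma tens_add_left' {X Y Z T : 𝒱.Obj} (Γ Γ' : C.A (X.prod Y)) (Δ : C.A (Z.prod T)) :
    tens C (Γ + Γ') Δ = tens C Γ Δ + tens C Γ' Δ := by
  rw [tens, tens, tens, map_add, add_mul]

lemma tens_sub_left {X Y Z T : 𝒱.Obj} (Γ Γ' : C.A (X.prod Y)) (Δ : C.A (Z.prod T)) :
    tens C (Γ - Γ') Δ = tens C Γ Δ - tens C Γ' Δ := by
  rw [tens, tens, tens, map_sub, sub_mul]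

lemma factor_mem {W : Fin 2 → C.A (X.prod X)} (hW : ∀ i, W i ∈ C.gr (X.prod X) X.dim)
    (x : Fin 2 × Bool) : factor C W x ∈ C.gr (X.prod X) X.dim := by
  rw [factor]
  split_ifs
  · exact Submodule.add_mem _ (dg_mem C X) (hW _)
  · exact Submodule.sub_mem _ (dg_mem C X) (hW _)

lemma wordVal_mem {W : Fin 2 → C.A (X.prod X)} (hW : ∀ i, W i ∈ C.gr (X.prod X) X.dim)
    (w : FreeGroup (Fin 2)) : wordVal C W w ∈ C.gr (X.prod X) X.dim := by
  refine compList_mem fun γ hγ => ?_
  rw [List.mem_map] at hγ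
  obtain ⟨x, -, rfl⟩ := hγ
  exact factor_mem hW x

/-- The easy direction. -/
lemma wordVal_sub_mem {P : Family C} (hP : IsAdequate C P) {W : Fin 2 → C.A (X.prod X)}
    (hW : ∀ i, W i ∈ P (X.prod X) X.dim) (w : FreeGroup (Fin 2)) :
    wordVal C W w - dg C X ∈ P (X.prod X) X.dim := by
  have hW' : ∀ i, W i ∈ C.gr (X.prod X) X.dim := fun i => hP.le_gr _ _ (hW i)
  rw [wordVal]
  generalize w.toWord = L
  induction L with
  | nil => rw [List.map_nil, compList, sub_self]; exact Submodule.zero_mem _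
  | cons x L ih =>
    rw [List.map_cons, compList]
    have hc : compList C X (L.map (factor C W)) ∈ C.gr (X.prod X) X.dim := by
      refine compList_mem fun γ hγ => ?_
      rw [List.mem_map] at hγ
      obtain ⟨x, -, rfl⟩ := hγ
      exact factor_mem hW' x
    have h1 := I_comp_left hP (hW x.1) hc
    rw [factor]
    split_ifs
    · rw [add_comp, dg_comp, add_sub_right_comm]
      exact Submodule.add_mem _ ih h1
    · rw [sub_comp, dg_comp, sub_right_comm]
      exact Submodule.sub_mem _ ih h1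

lemma E_comp_eq {ι : Type} [DecidableEq ι] {e : ℤ} {a b : ι → C.A Q} (h : Units C e a b)
    (i j l : ι) : C.comp (E C a b i j) (E C a b j l) = E C a b i l := by
  have h1 := h.deg j j
  rw [if_pos rfl] at h1
  rw [E, E, comp_ext_ext h1, one_smul]
  rfl

lemma E_notMem {ι : Type} [DecidableEq ι] {e : ℤ} {a b : ι → C.A Q} (h : Units C e a b)
    {P : Family C} (hP : IsPrime C P) (i j : ι) : E C a b i j ∉ P (Q.prod Q) Q.dim := by
  intro h3
  have h4 := I_act hP.toIsAdequate h3 (h.ha i)
  rw [act_E h] at h4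
  exact notMem_of_units h hP _ h4

section pair

variable {e : ℤ} {a b : Fin 2 → C.A Q}

/-- Pairs as columns of matrices. -/
noncomputable def col (a b : Fin 2 → C.A Q) (v : Fin 2 → C.A (X.prod X)) :
    C.A ((X.prod Q).prod (X.prod Q)) :=
  tens C (v 0) (E C a b 0 0) + tens C (v 1) (E C a b 1 0)

/-- The two square-zero correspondences. -/
noncomputable def vv (a b : Fin 2 → C.A Q) (u : C.A (X.prod X)) :
    Fin 2 → C.A ((X.prod Q).prod (X.prod Q)) :=
  ![tens C u (E C a b 1 0), tens C u (E C a b 0 1)]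

lemma vv_spec (h : Units C e a b) {I : Family C} (hI : IsAdequate C I) {u : C.A (X.prod X)}
    (hu : u ∈ I (X.prod X) X.dim) (i : Fin 2) :
    vv a b u i ∈ I ((X.prod Q).prod (X.prod Q)) (X.prod Q).dim ∧
      C.comp (vv a b u i) (vv a b u i) = 0 := by
  have key : ∀ i j : Fin 2, i ≠ j →
      tens C u (E C a b i j) ∈ I ((X.prod Q).prod (X.prod Q)) (X.prod Q).dim ∧
      C.comp (tens C u (E C a b i j)) (tens C u (E C a b i j)) = 0 := by
    intro i j hij
    refine ⟨I_tens_left hI hu (E_mem h _ _), ?_⟩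
    rw [tens_comp', E_comp_ne h (Ne.symm hij), tens_zero_right]
  fin_cases i
  · exact key 1 0 (by decide)
  · exact key 0 1 (by decide)

lemma comp_factor_col (h : Units C e a b) (u : C.A (X.prod X)) (x : Fin 2 × Bool)
    (v : Fin 2 → C.A (X.prod X)) :
    C.comp (factor C (vv a b u) x) (col a b v) =
      col a b (pact (compL C u : Module.End ℚ (C.A (X.prod X)))
        (cond x.2 ((![lo Polynomial.X, up Polynomial.X] : Fin 2 → _) x.1)
          ((![lo Polynomial.X, up Polynomial.X] : Fin 2 → _) x.1)⁻¹) v) := by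
  obtain ⟨i, t⟩ := x
  have h0 : C.comp (tens C u (E C a b 1 0)) (col a b v) = tens C (C.comp u (v 0)) (E C a b 1 0) := by
    rw [col, comp_add, tens_comp', tens_comp', E_comp_eq h,
      E_comp_ne h (show (0 : Fin 2) ≠ 1 by decide), tens_zero_right, add_zero]
  have h1 : C.comp (tens C u (E C a b 0 1)) (col a b v) = tens C (C.comp u (v 1)) (E C a b 0 0) := by
    rw [col, comp_add, tens_comp', tens_comp', E_comp_eq h,
      E_comp_ne h (show (1 : Fin 2) ≠ 0 by decide), tens_zero_right, zero_add]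
  cases t
  · fin_cases i
    · change C.comp (dg C _ - tens C u (E C a b 1 0)) (col a b v) =
        col a b (pact (compL C u : Module.End ℚ (C.A (X.prod X))) (lo Polynomial.X)⁻¹ v)
      rw [pact_lo_inv, sub_comp, dg_comp, h0]
      change tens C (v 0) (E C a b 0 0) + tens C (v 1) (E C a b 1 0) - _ =
        tens C (v 0) (E C a b 0 0) + tens C (v 1 - C.comp u (v 0)) (E C a b 1 0)
      rw [tens_sub_left, add_sub_assoc]
    · change C.comp (dg C _ - tens C u (E C a b 0 1)) (col a b v) =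
        col a b (pact (compL C u : Module.End ℚ (C.A (X.prod X))) (up Polynomial.X)⁻¹ v)
      rw [pact_up_inv, sub_comp, dg_comp, h1]
      change tens C (v 0) (E C a b 0 0) + tens C (v 1) (E C a b 1 0) - _ =
        tens C (v 0 - C.comp u (v 1)) (E C a b 0 0) + tens C (v 1) (E C a b 1 0)
      rw [tens_sub_left]
      abel
  · fin_cases i
    · change C.comp (dg C _ + tens C u (E C a b 1 0)) (col a b v) =
        col a b (pact (compL C u : Module.End ℚ (C.A (X.prod X))) (lo Polynomial.X) v)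
      rw [pact_lo, add_comp, dg_comp, h0]
      change tens C (v 0) (E C a b 0 0) + tens C (v 1) (E C a b 1 0) + _ =
        tens C (v 0) (E C a b 0 0) + tens C (v 1 + C.comp u (v 0)) (E C a b 1 0)
      rw [tens_add_left', add_assoc]
    · change C.comp (dg C _ + tens C u (E C a b 0 1)) (col a b v) =
        col a b (pact (compL C u : Module.End ℚ (C.A (X.prod X))) (up Polynomial.X) v)
      rw [pact_up, add_comp, dg_comp, h1]
      change tens C (v 0) (E C a b 0 0) + tens C (v 1) (E C a b 1 0) + _ =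
        tens C (v 0 + C.comp u (v 1)) (E C a b 0 0) + tens C (v 1) (E C a b 1 0)
      rw [tens_add_left']
      abel

lemma comp_word_col (h : Units C e a b) (u : C.A (X.prod X)) (w : FreeGroup (Fin 2))
    (v : Fin 2 → C.A (X.prod X)) :
    C.comp (wordVal C (vv a b u) w) (col a b v) =
      col a b (pact (compL C u : Module.End ℚ (C.A (X.prod X))) (mw w) v) := by
  rw [mw_eq_prod, wordVal]
  generalize w.toWord = L
  induction L with
  | nil => rw [List.map_nil, compList, dg_comp, List.map_nil, List.prod_nil, pact_one]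
  | cons x L ih =>
    rw [List.map_cons, compList, comp_assoc, ih, comp_factor_col h, List.map_cons, List.prod_cons,
      pact_mul]

lemma col_mem (h : Units C e a b) {v : Fin 2 → C.A (X.prod X)}
    (hv : ∀ i, v i ∈ C.gr (X.prod X) X.dim) :
    col a b v ∈ C.gr ((X.prod Q).prod (X.prod Q)) (X.prod Q).dim := by
  have hg : ∀ (y : C.A (X.prod X)) (i j : Fin 2), y ∈ C.gr (X.prod X) X.dim →
      tens C y (E C a b i j) ∈ C.gr ((X.prod Q).prod (X.prod Q)) (X.prod Q).dim := by
    intro y i j hy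
    rw [tens]
    have h1 := C.mul_mem (C.pull_mem (prodMap (fst X Q) (fst X Q)) hy)
      (C.pull_mem (prodMap (snd X Q) (snd X Q)) (E_mem h i j))
    exact gr_congr (by rw [dim_prod]; push_cast; ring) h1
  exact Submodule.add_mem _ (hg _ _ _ (hv 0)) (hg _ _ _ (hv 1))

/-- The components of a column in `P` are in `P`. -/
lemma col_sep (h : Units C e a b) {P : Family C} (hP : IsPrime C P)
    {v : Fin 2 → C.A (X.prod X)} (hv : ∀ i, v i ∈ C.gr (X.prod X) X.dim)
    (hc : col a b v ∈ P ((X.prod Q).prod (X.prod Q)) (X.prod Q).dim) (i : Fin 2) :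
    v i ∈ P (X.prod X) X.dim := by
  have key : C.comp (tens C (dg C X) (E C a b 0 i)) (col a b v) = tens C (v i) (E C a b 0 0) := by
    rw [col, comp_add, tens_comp', tens_comp', dg_comp, dg_comp]
    fin_cases i
    · change tens C (v 0) (C.comp (E C a b 0 0) (E C a b 0 0)) +
        tens C (v 1) (C.comp (E C a b 0 0) (E C a b 1 0)) = tens C (v 0) (E C a b 0 0)
      rw [E_comp_eq h, E_comp_ne h (show (0 : Fin 2) ≠ 1 by decide), tens_zero_right, add_zero]
    · change tens C (v 0) (C.comp (E C a b 0 1) (E C a b 0 0)) +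
        tens C (v 1) (C.comp (E C a b 0 1) (E C a b 1 0)) = tens C (v 1) (E C a b 0 0)
      rw [E_comp_eq h, E_comp_ne h (show (1 : Fin 2) ≠ 0 by decide), tens_zero_right, zero_add]
  have hg : tens C (dg C X) (E C a b 0 i) ∈
      C.gr ((X.prod Q).prod (X.prod Q)) (X.prod Q).dim := by
    rw [tens]
    have h1 := C.mul_mem (C.pull_mem (prodMap (fst X Q) (fst X Q)) (dg_mem C X))
      (C.pull_mem (prodMap (snd X Q) (snd X Q)) (E_mem h 0 i))
    exact gr_congr (by rw [dim_prod]; push_cast; ring) h1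
  have h1 := I_comp_right hP.toIsAdequate hg hc
  rw [key] at h1
  rcases P_tens hP (hv i) (E_mem h _ _) h1 with h2 | h2
  · exact h2
  · exact absurd h2 (E_notMem h hP _ _)

end pair

/-- A relation between the units in matrices of size two gives a polynomial relation. -/
lemma entry_mem {I P : Family C} (hI : IsAdequate C I) (hP : IsPrime C P)
    {w : FreeGroup (Fin 2)} (h : ∀ (X : 𝒱.Obj) (W : Fin 2 → C.A (X.prod X)),
      (∀ i, W i ∈ I (X.prod X) X.dim ∧ C.comp (W i) (W i) = 0) →
        wordVal C W w - dg C X ∈ P (X.prod X) X.dim)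
    (hY : 0 < Y.dim) {u : C.A (X.prod X)} (hu : u ∈ I (X.prod X) X.dim) (i j : Fin 2) :
    Polynomial.aeval (compL C u : Module.End ℚ (C.A (X.prod X)))
      ((mw w : Matrix (Fin 2) (Fin 2) (Polynomial ℚ)) i j -
        (1 : Matrix (Fin 2) (Fin 2) (Polynomial ℚ)) i j) (dg C X) ∈ P (X.prod X) X.dim := by
  obtain ⟨Q, e, a, b, hab⟩ := exists_units (C := C) hY 1
  have hugr : u ∈ C.gr (X.prod X) X.dim := hI.le_gr _ _ hu
  set T : Module.End ℚ (C.A (X.prod X)) := compL C u with hT
  have h1 := h (X.prod Q) (vv a b u) (fun i => vv_spec hab hI hu i)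
  set v : Fin 2 → C.A (X.prod X) := Pi.single j (dg C X) with hv
  have hvg : ∀ i, v i ∈ C.gr (X.prod X) X.dim := by
    intro i
    by_cases hij : i = j
    · subst hij
      rw [hv, Pi.single_eq_same]
      exact dg_mem C X
    · rw [hv, Pi.single_eq_of_ne hij]
      exact Submodule.zero_mem _
  have h2 := I_comp_left hP.toIsAdequate h1 (col_mem hab hvg)
  have h3 : C.comp (wordVal C (vv a b u) w - dg C (X.prod Q)) (col a b v) =
      col a b (fun i => Polynomial.aeval T ((mw w : Matrix (Fin 2) (Fin 2) (Polynomial ℚ)) i j -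
        (1 : Matrix (Fin 2) (Fin 2) (Polynomial ℚ)) i j) (dg C X)) := by
    rw [sub_comp, comp_word_col hab, dg_comp]
    have h4 : ∀ v v' : Fin 2 → C.A (X.prod X), col a b v - col a b v' =
        col a b (fun i => v i - v' i) := by
      intro v v'
      rw [col, col, col, tens_sub_left, tens_sub_left]
      abel
    rw [h4]
    congr 1
    funext i
    rw [hv]
    fin_cases i <;> fin_cases j <;> simp [pact] <;> rfl
  rw [h3] at h2
  refine col_sep hab hP (fun i => ?_) h2 i
  refine aeval_mem _ T (fun x hx => ?_) _ (dg_mem C X)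
  exact comp_mem0 C hugr hx

/-- Nilpotence modulo `P` with a uniform exponent. -/
lemma pow_mem {I P : Family C} (hI : IsAdequate C I) (hP : IsPrime C P)
    {w : FreeGroup (Fin 2)} (h : ∀ (X : 𝒱.Obj) (W : Fin 2 → C.A (X.prod X)),
      (∀ i, W i ∈ I (X.prod X) X.dim ∧ C.comp (W i) (W i) = 0) →
        wordVal C W w - dg C X ∈ P (X.prod X) X.dim)
    (hw : w ≠ 1) (hY : 0 < Y.dim) : ∃ n : ℕ, ∀ (X : 𝒱.Obj) (u : C.A (X.prod X)),
      u ∈ I (X.prod X) X.dim →
        (((compL C u : Module.End ℚ (C.A (X.prod X))) ^ n) (dg C X)) ∈ P (X.prod X) X.dim := by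
  obtain ⟨i, j, hij⟩ := exists_entry hw
  set f := (mw w : Matrix (Fin 2) (Fin 2) (Polynomial ℚ)) i j -
      (1 : Matrix (Fin 2) (Fin 2) (Polynomial ℚ)) i j with hf
  refine ⟨f.natDegree, fun X u hu => ?_⟩
  have h1 := coeff_mem (P (X.prod X) X.dim) (compL C u : Module.End ℚ (C.A (X.prod X))) (dg C X) f
    (fun s => by
      have h2 := entry_mem hI hP h hY (Submodule.smul_mem _ s hu) i j
      rw [map_smul] at h2
      exact h2) f.natDegree
  have h3 : f.coeff f.natDegree ≠ 0 := by
    rw [Polynomial.coeff_natDegree]; exact Polynomial.leadingCoeff_ne_zero.2 hij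
  have h4 := Submodule.smul_mem _ (f.coeff f.natDegree)⁻¹ h1
  rwa [smul_smul, inv_mul_cancel₀ h3, one_smul] at h4

/-- Products of length `n + 1` of elements of `I` are in `P`. -/
lemma nilP_of_pow {I P : Family C} (hI : IsAdequate C I) (hP : IsPrime C P) {n : ℕ}
    (h : ∀ (X : 𝒱.Obj) (u : C.A (X.prod X)), u ∈ I (X.prod X) X.dim →
      (((compL C u : Module.End ℚ (C.A (X.prod X))) ^ n) (dg C X)) ∈ P (X.prod X) X.dim)
    (hY : 0 < Y.dim) : NilP I P n := by
  intro X l hl hlI
  subst hl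
  obtain ⟨Q, e, a, b, hab⟩ := exists_units (C := C) hY l.length
  have hlgr : ∀ γ ∈ l, γ ∈ C.gr (X.prod X) X.dim := fun γ hγ => hI.le_gr _ _ (hlI γ hγ)
  set u : C.A ((X.prod Q).prod (X.prod Q)) :=
    ∑ i : Fin l.length, tens C (l.get i) (E C a b i.castSucc i.succ) with hu
  have huI : u ∈ I ((X.prod Q).prod (X.prod Q)) (X.prod Q).dim :=
    Submodule.sum_mem _ fun i _ => I_tens_left hI (hlI _ (l.get_mem i)) (E_mem hab _ _)
  have hstep : ∀ (j : Fin l.length) (γ : C.A (X.prod X)),
      C.comp (tens C γ (E C a b 0 j.castSucc)) u =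
        tens C (C.comp γ (l.get j)) (E C a b 0 j.succ) := by
    intro j γ
    rw [hu, comp_sum, Finset.sum_eq_single j]
    · rw [tens_comp', E_comp_eq hab]
    · intro i _ hij
      rw [tens_comp', E_comp_ne hab, tens_zero_right]
      intro he
      exact hij (Fin.castSucc_injective _ he).symm
    · intro h0
      exact absurd (Finset.mem_univ j) h0
  have key : ∀ (e j : ℕ) (hj : j + e = l.length) (γ : C.A (X.prod X)),
      C.comp (tens C γ (E C a b 0 ⟨j, by omega⟩))
        (((compL C u : Module.End ℚ (C.A ((X.prod Q).prod (X.prod Q)))) ^ e) (dg C (X.prod Q))) =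
        tens C (C.comp γ (compList C X (l.drop j))) (E C a b 0 (Fin.last l.length)) := by
    intro e
    induction e with
    | zero =>
      intro j hj γ
      have hjn : j = l.length := by omega
      subst hjn
      rw [List.drop_length, compList, comp_dg, pow_zero, Module.End.one_apply, comp_dg]
      rfl
    | succ e ih =>
      intro j hj γ
      have hjn : j < l.length := by omega
      have e1 : l.drop j = l.get ⟨j, hjn⟩ :: l.drop (j + 1) := by
        rw [List.drop_eq_getElem_cons hjn]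
        rfl
      have e2 := hstep ⟨j, hjn⟩ γ
      have e3 := ih (j + 1) (by omega) (C.comp γ (l.get ⟨j, hjn⟩))
      have e4 : C.comp (tens C γ (E C a b 0 ⟨j, by omega⟩)) u =
        tens C (C.comp γ (l.get ⟨j, hjn⟩)) (E C a b 0 ⟨j + 1, by omega⟩) := e2
      rw [pow_succ', Module.End.mul_apply, compL_apply, ← comp_assoc, e4, e3, e1, compList,
        comp_assoc]
  have h1 := h (X.prod Q) u huI
  have h2 := key l.length 0 (by omega) (dg C X)
  rw [List.drop_zero, dg_comp] at h2
  have hg : tens C (dg C X) (E C a b 0 ⟨0, by omega⟩) ∈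
      C.gr ((X.prod Q).prod (X.prod Q)) (X.prod Q).dim := by
    rw [tens]
    have h1 := C.mul_mem (C.pull_mem (prodMap (fst X Q) (fst X Q)) (dg_mem C X))
      (C.pull_mem (prodMap (snd X Q) (snd X Q)) (E_mem hab 0 ⟨0, by omega⟩))
    exact gr_congr (by rw [dim_prod]; push_cast; ring) h1
  have h3 := I_comp_right hP.toIsAdequate hg h1
  rw [h2] at h3
  rcases P_tens hP (compList_mem hlgr) (E_mem hab _ _) h3 with h4 | h4
  · exact h4
  · exact absurd h4 (E_notMem hab hP _ _)

lemma core_dim_zero {I P : Family C} (hI : IsAdequate C I)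
    (h1 : ∀ X : 𝒱.Obj, (1 : C.A X) ∉ I X 0) (hP : IsPrime C P) (hY : ∀ Y : 𝒱.Obj, Y.dim ≤ 0)
    (X : 𝒱.Obj) (i : ℤ) : I X i ≤ P X i := by
  refine (core hI h1 hP (Nat.succ_pos 0) (c := fun _ => 1) ?_).2 ?_ X i
  · intro h0
    exact one_ne_zero (congrFun h0 1)
  · intro X W hW
    rw [polyVal]
    refine Submodule.sum_mem _ fun σ _ => Submodule.smul_mem _ _ ?_
    have hX0 : X.dim = 0 := Nat.le_zero.1 (hY X)
    rw [List.ofFn_succ, compList]
    have hz := hW (σ 0)
    have hz0 : W (σ 0) = 0 := by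
      have hz' : W (σ 0) ∈ I (X.prod X) 0 := hI.congr (by rw [hX0]; norm_num) hz
      obtain ⟨q, hq⟩ := hC.gr_zero _ _ (hI.le_gr _ _ hz')
      by_cases hq0 : q = 0
      · rw [hq, hq0, zero_smul]
      · exfalso
        apply h1 (X.prod X)
        have h3 := Submodule.smul_mem _ q⁻¹ hz'
        rwa [hq, smul_smul, inv_mul_cancel₀ hq0, one_smul] at h3
    rw [hz0, zero_comp]
    exact Submodule.zero_mem _

/-- Nilpotence of bounded index modulo `P` implies `I ≤ P`. -/
theorem core_of_pow {I P : Family C} (hI : IsAdequate C I)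
    (h1 : ∀ X : 𝒱.Obj, (1 : C.A X) ∉ I X 0) (hP : IsPrime C P) {n : ℕ}
    (hn : ∀ (X : 𝒱.Obj) (u : C.A (X.prod X)), u ∈ I (X.prod X) X.dim →
      (((compL C u : Module.End ℚ (C.A (X.prod X))) ^ n) (dg C X)) ∈ P (X.prod X) X.dim)
    (X : 𝒱.Obj) (i : ℤ) : I X i ≤ P X i := by
  by_cases hY : ∃ Y : 𝒱.Obj, 0 < Y.dim
  · obtain ⟨Y, hY⟩ := hY
    have hN := nilP_of_pow hI hP hn hY
    refine (core hI h1 hP (Nat.succ_pos n) (c := fun _ => 1) ?_).2 ?_ X i
    · intro h0
      exact one_ne_zero (congrFun h0 1)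
    · intro X W hW
      rw [polyVal]
      refine Submodule.sum_mem _ fun σ _ => Submodule.smul_mem _ _ ?_
      rw [List.ofFn_succ, compList]
      refine I_comp_right hP.toIsAdequate (hI.le_gr _ _ (hW _)) (hN X _ (List.length_ofFn) ?_)
      intro γ hγ
      rw [List.mem_ofFn] at hγ
      obtain ⟨j, rfl⟩ := hγ
      exact hW _
  · push Not at hY
    exact core_dim_zero hI h1 hP hY X i

/-- **The main theorem.** -/
theorem word_core {I P : Family C} (hI : IsAdequate C I) (h1 : ∀ X : 𝒱.Obj, (1 : C.A X) ∉ I X 0)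
    (hP : IsPrime C P) {w : FreeGroup (Fin 2)} (hw : w ≠ 1)
    (h : ∀ (X : 𝒱.Obj) (W : Fin 2 → C.A (X.prod X)),
      (∀ i, W i ∈ I (X.prod X) X.dim ∧ C.comp (W i) (W i) = 0) →
        wordVal C W w - dg C X ∈ P (X.prod X) X.dim) (X : 𝒱.Obj) (i : ℤ) : I X i ≤ P X i := by
  by_cases hY : ∃ Y : 𝒱.Obj, 0 < Y.dim
  · obtain ⟨Y, hY⟩ := hY
    obtain ⟨n, hn⟩ := pow_mem hI hP h hw hY
    exact core_of_pow hI h1 hP hn X i
  · push Not at hY
    exact core_dim_zero hI h1 hP hY X i

lemma compList_replicate (u : C.A (X.prod X)) (n : ℕ) :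
    compList C X (List.replicate n u) =
      ((compL C u : Module.End ℚ (C.A (X.prod X))) ^ n) (dg C X) := by
  induction n with
  | zero => rfl
  | succ n ih => rw [List.replicate_succ, compList, ih, pow_succ', Module.End.mul_apply]; rfl

/-- The version for homological equivalence and other prime adequate relations. -/
theorem word_iff {I P : Family C} (hI : IsAdequate C I) (h1 : ∀ X : 𝒱.Obj, (1 : C.A X) ∉ I X 0)
    (hP : IsPrime C P) {w : FreeGroup (Fin 2)} (hw : w ≠ 1) :
    (∀ X i, I X i ≤ P X i) ↔ ∀ (X : 𝒱.Obj) (W : Fin 2 → C.A (X.prod X)),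
      (∀ i, W i ∈ I (X.prod X) X.dim ∧ C.comp (W i) (W i) = 0) →
        wordVal C W w - dg C X ∈ P (X.prod X) X.dim :=
  ⟨fun h X W hW => wordVal_sub_mem hP.toIsAdequate (fun i => h _ _ (hW i).1) w,
    fun h => word_core hI h1 hP hw h⟩

lemma wordVal_sub_gr {W : Fin 2 → C.A (X.prod X)} (hW : ∀ i, W i ∈ C.gr (X.prod X) X.dim)
    (w : FreeGroup (Fin 2)) : C.Deg X.dim (wordVal C W w - dg C X) :=
  Submodule.sub_mem _ (wordVal_mem hW w) (dg_mem C X)

lemma compList_replicate_mem {u : C.A (X.prod X)} (hu : u ∈ C.gr (X.prod X) X.dim) (n : ℕ) :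
    C.Deg X.dim (compList C X (List.replicate n u)) := by
  refine compList_mem fun γ hγ => ?_
  rw [List.eq_of_mem_replicate hγ]
  exact hu

/-- The version for smash-nilpotence. -/
theorem word_smash_iff {I : Family C} (hI : IsAdequate C I)
    (h1 : ∀ X : 𝒱.Obj, (1 : C.A X) ∉ I X 0) {w : FreeGroup (Fin 2)} (hw : w ≠ 1) :
    (∀ (X : 𝒱.Obj) (i : ℤ), ∀ a ∈ I X i, SmashNilpotent C a) ↔
      ∀ (X : 𝒱.Obj) (W : Fin 2 → C.A (X.prod X)),
        (∀ i, W i ∈ I (X.prod X) X.dim ∧ C.comp (W i) (W i) = 0) →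
          SmashNilpotent C (wordVal C W w - dg C X) := by
  constructor
  · intro h X W hW
    have hgr : ∀ i, W i ∈ C.gr (X.prod X) X.dim := fun i => hI.le_gr _ _ (hW i).1
    rw [smashNilpotent_iff (wordVal_sub_gr hgr w)]
    intro P hP
    refine (word_iff hI h1 hP hw).1 (fun Y j a ha => ?_) X W hW
    exact (smashNilpotent_iff (hI.le_gr _ _ ha)).1 (h Y j a ha) P hP
  · intro h X i a ha
    rw [smashNilpotent_iff (hI.le_gr _ _ ha)]
    intro P hP
    refine word_core hI h1 hP hw (fun Y W hW => ?_) X i ha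
    have hgr : ∀ i, W i ∈ C.gr (Y.prod Y) Y.dim := fun i => hI.le_gr _ _ (hW i).1
    exact (smashNilpotent_iff (wordVal_sub_gr hgr w)).1 (h Y W hW) P hP

/-- Smash-nilpotence of the powers with a bounded exponent. -/
theorem pow_smash_iff {I : Family C} (hI : IsAdequate C I)
    (h1 : ∀ X : 𝒱.Obj, (1 : C.A X) ∉ I X 0) :
    (∀ (X : 𝒱.Obj) (i : ℤ), ∀ a ∈ I X i, SmashNilpotent C a) ↔
      ∃ n : ℕ, ∀ (X : 𝒱.Obj), ∀ u ∈ I (X.prod X) X.dim,
        SmashNilpotent C (compList C X (List.replicate n u)) := by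
  constructor
  · intro h
    refine ⟨1, fun X u hu => ?_⟩
    rw [List.replicate_one, compList, compList, comp_dg]
    exact h _ _ u hu
  · rintro ⟨n, hn⟩ X i a ha
    rw [smashNilpotent_iff (hI.le_gr _ _ ha)]
    intro P hP
    refine core_of_pow hI h1 hP (n := n) (fun Y u hu => ?_) X i ha
    rw [← compList_replicate]
    exact (smashNilpotent_iff (compList_replicate_mem (hI.le_gr _ _ hu) n)).1 (hn Y u hu) P hP

/-- Nilpotence modulo a prime relation with a bounded exponent. -/
theorem pow_iff {I P : Family C} (hI : IsAdequate C I)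
    (h1 : ∀ X : 𝒱.Obj, (1 : C.A X) ∉ I X 0) (hP : IsPrime C P) :
    (∀ X i, I X i ≤ P X i) ↔
      ∃ n : ℕ, ∀ (X : 𝒱.Obj), ∀ u ∈ I (X.prod X) X.dim,
        compList C X (List.replicate n u) ∈ P (X.prod X) X.dim := by
  constructor
  · intro h
    refine ⟨1, fun X u hu => ?_⟩
    rw [List.replicate_one, compList, compList, comp_dg]
    exact h _ _ hu
  · rintro ⟨n, hn⟩ X i
    refine core_of_pow hI h1 hP (n := n) (fun Y u hu => ?_) X i
    rw [← compList_replicate]
    exact hn Y u hu

end Pool.Agent.V1126.BN
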