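import Pool.Agent.V1126.BN.KimDefs
import Pool.Agent.V1126.BN.Word
import Pool.Agent.TH829.Kim.Main

/-!
# Nilpotence of numerically trivial self-correspondences and relations between unipotents
-/

open CategoryTheory AlgebraicGeometry

universe u v w

namespace Pool.Agent.V1126.BN

open Pool.Agent.H914 Pool.Agent.H914.VarClass Pool.Agent.H914.VarClass.Obj Pool.Agent.W492.BB
  Pool.Agent.W550.Corr Pool.Agent.TH133 Pool.Agent.Y148.BB Pool.Agent.TH829.Prime
  Pool.Agent.V1157.RC Pool.Agent.V1157.PI Pool.Agent.TH829.Kim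

set_option linter.unusedSectionVars false

variable {k : Type u} [Field k] {𝒱 : VarClass k} {C : TheoryData.{u, v, 0} 𝒱 ℚ}
  [hC : IsChowProj C] {X Y Q Z : 𝒱.Obj}

include hC

/-! ### From nilpotence to relations -/

/-- Left multiplication. -/
noncomputable def lm (C : TheoryData.{u, v, 0} 𝒱 ℚ) [hC : IsChowProj C] {X : 𝒱.Obj}
    (u : C.A (X.prod X)) : Module.End ℚ (C.A (X.prod X)) := compL C u

lemma lm_apply (u y : C.A (X.prod X)) : lm C u y = C.comp u y := rfl

lemma lm_comp (u y : C.A (X.prod X)) : lm C (C.comp u y) = lm C u * lm C y := by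
  ext z
  rw [Module.End.mul_apply, lm_apply, lm_apply, lm_apply, comp_assoc]

lemma lm_dg : lm C (dg C X) = 1 := by
  ext z
  rw [lm_apply, dg_comp]
  rfl

lemma lm_add (u y : C.A (X.prod X)) : lm C (u + y) = lm C u + lm C y := map_add (compL C) u y

lemma lm_sub (u y : C.A (X.prod X)) : lm C (u - y) = lm C u - lm C y := map_sub (compL C) u y

lemma lm_zero : lm C (0 : C.A (X.prod X)) = 0 := map_zero (compL C)

lemma lm_inj {u y : C.A (X.prod X)} (h : lm C u = lm C y) : u = y := by
  have h1 := congrArg (fun f : Module.End ℚ (C.A (X.prod X)) => f (dg C X)) h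
  simp only [lm_apply] at h1
  rwa [comp_dg, comp_dg] at h1

/-- The unit `1 + x` for `x` of square zero. -/
def sqU {R : Type*} [Ring R] (x : R) (h : x * x = 0) : Rˣ where
  val := 1 + x
  inv := 1 - x
  val_inv := by rw [add_mul, one_mul, mul_sub, mul_one, h, sub_zero, sub_add_cancel]
  inv_val := by rw [sub_mul, one_mul, mul_add, mul_one, h, add_zero, add_sub_cancel_right]

lemma lm_wordVal {W : Fin 2 → C.A (X.prod X)} (hsq : ∀ i, lm C (W i) * lm C (W i) = 0)
    (w : FreeGroup (Fin 2)) : lm C (wordVal C W w) =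
      ((FreeGroup.lift (fun i => sqU (lm C (W i)) (hsq i)) w :
        (Module.End ℚ (C.A (X.prod X)))ˣ) : Module.End ℚ (C.A (X.prod X))) := by
  conv_rhs => rw [← FreeGroup.mk_toWord (x := w), FreeGroup.lift_mk]
  rw [wordVal]
  generalize w.toWord = L
  induction L with
  | nil =>
    rw [List.map_nil, compList, List.map_nil, List.prod_nil, lm_dg]
    rfl
  | cons x L ih =>
    rw [List.map_cons, compList, lm_comp, ih, List.map_cons, List.prod_cons, Units.val_mul]
    congr 1
    obtain ⟨i, t⟩ := x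
    cases t
    · change lm C (dg C X - W i) = 1 - lm C (W i)
      rw [lm_sub, lm_dg]
    · change lm C (dg C X + W i) = 1 + lm C (W i)
      rw [lm_add, lm_dg]

lemma relations_of_num_nilpotence (h : NumNilpotence C) : NumRelations C := by
  intro X W hW
  have hgr : ∀ i, W i ∈ C.gr (X.prod X) X.dim := fun i => (hW i).1.1
  have hsq : ∀ i, lm C (W i) * lm C (W i) = 0 := fun i => by
    rw [← lm_comp, (hW i).2, lm_zero]
  have hmem : C.comp (W 0) (W 1) ∈ numFam C (X.prod X) X.dim := by
    by_cases hone : ∀ X : 𝒱.Obj, (1 : C.A X) ≠ 0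
    · exact I_comp_left (isAdequate_numFam hone) (hW 0).1 (hgr 1)
    · push Not at hone
      obtain ⟨Y, hY⟩ := hone
      have hall : ∀ z : C.A (X.prod X), z = 0 := by
        intro z
        have h1 : (1 : C.A (X.prod X)) = 0 := by
          obtain ⟨o, ho, ho1⟩ := exists_o (C := C) Y
          have h2 := (ho1 (X.prod X)).2
          have h3 : o = 0 := by rw [← one_mul o, hY, zero_mul]
          rw [h3, map_zero, map_zero, one_smul] at h2
          exact h2.symm
        rw [← one_mul z, h1, zero_mul]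
      rw [hall (C.comp (W 0) (W 1))]
      exact Submodule.zero_mem _
  obtain ⟨n, hn⟩ := h X _ hmem
  refine ⟨wd (2 * n), wd_ne_one _, ?_⟩
  have hnil : (lm C (W 0) * lm C (W 1)) ^ n = 0 := by
    rw [← lm_comp]
    ext z
    have h1 := compList_replicate (C.comp (W 0) (W 1)) n
    rw [hn] at h1
    have h2 : ∀ (m : ℕ) (u z : C.A (X.prod X)),
        (lm C u ^ m) z = C.comp ((lm C u ^ m) (dg C X)) z := by
      intro m
      induction m with
      | zero => intro u z; rw [pow_zero, Module.End.one_apply, Module.End.one_apply, dg_comp]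
      | succ m ih =>
        intro u z
        rw [pow_succ', Module.End.mul_apply, Module.End.mul_apply, ih u z, lm_apply, lm_apply,
          comp_assoc]
    rw [h2]
    have h3 : (lm C (C.comp (W 0) (W 1)) ^ n) (dg C X) = 0 := h1.symm
    rw [h3, zero_comp]
    rfl
  have h4 := wd_eq_one (R := Module.End ℚ (C.A (X.prod X))) (a := lm C (W 0)) (b := lm C (W 1))
    (hsq 0) (hsq 1) (n := n) hnil (fun i => sqU (lm C (W i)) (hsq i)) rfl rfl
  apply lm_inj
  rw [lm_wordVal hsq, h4, lm_dg]
  rfl

/-! ### From relations to nilpotence -/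

lemma tens_inj {z : C.A (X.prod X)} {a b : C.A Q} (h1 : HasDegree C (b * a) 1)
    (h2 : HasDegree C (a * b) 1) (h : tens C z (C.ext b a) = 0) : z = 0 := by
  have e1 : C.ext z (C.ext b a) = 0 := by
    have h3 : C.ext z (C.ext b a) = C.pull (mid X X Q Q) (tens C z (C.ext b a)) := by
      rw [tens_eq C, ← C.pull_comp, mid_mid, C.pull_id]
    rw [h3, h, map_zero]
  have e2 : HasDegree C (C.ext b a * C.ext a b) 1 := by
    rw [ext_mul_ext]
    have := hasDegree_ext h1 h2
    rwa [one_mul] at this
  have e3 : C.ext z (C.ext b a * C.ext a b) = 0 := by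
    have : C.ext z (C.ext b a * C.ext a b) = C.ext z (C.ext b a) *
        C.pull (snd (X.prod X) (Q.prod Q)) (C.ext a b) := by
      change C.pull (fst (X.prod X) (Q.prod Q)) z *
        C.pull (snd (X.prod X) (Q.prod Q)) (C.ext b a * C.ext a b) =
        C.pull (fst (X.prod X) (Q.prod Q)) z * C.pull (snd (X.prod X) (Q.prod Q)) (C.ext b a) *
        C.pull (snd (X.prod X) (Q.prod Q)) (C.ext a b)
      rw [map_mul, mul_assoc]
    rw [this, e1, zero_mul]
  have e4 : C.push (fst (X.prod X) (Q.prod Q)) (C.ext z (C.ext b a * C.ext a b)) = z := by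
    rw [TheoryData.ext, C.proj_left, (e2 (X.prod X)).2, one_smul, mul_one]
  rw [e3, map_zero] at e4
  exact e4.symm

lemma col_inj {e : ℤ} {a b : Fin 2 → C.A Q} (h : Units C e a b) {v v' : Fin 2 → C.A (X.prod X)}
    (hv : col a b v = col a b v') : v = v' := by
  have key : ∀ (i : Fin 2) (v : Fin 2 → C.A (X.prod X)),
      C.comp (tens C (dg C X) (E C a b 0 i)) (col a b v) = tens C (v i) (E C a b 0 0) := by
    intro i v
    rw [col, comp_add, tens_comp', tens_comp', dg_comp, dg_comp]
    fin_cases i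
    · change tens C (v 0) (C.comp (E C a b 0 0) (E C a b 0 0)) +
        tens C (v 1) (C.comp (E C a b 0 0) (E C a b 1 0)) = tens C (v 0) (E C a b 0 0)
      rw [E_comp_eq h, E_comp_ne h (show (0 : Fin 2) ≠ 1 by decide), tens_zero_right, add_zero]
    · change tens C (v 0) (C.comp (E C a b 0 1) (E C a b 0 0)) +
        tens C (v 1) (C.comp (E C a b 0 1) (E C a b 1 0)) = tens C (v 1) (E C a b 0 0)
      rw [E_comp_eq h, E_comp_ne h (show (1 : Fin 2) ≠ 0 by decide), tens_zero_right, zero_add]
  funext i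
  have h1 : tens C (v i - v' i) (C.ext (b 0) (a 0)) = 0 := by
    have h2 := key i v
    rw [hv, key i v'] at h2
    rw [tens_sub_left]
    exact sub_eq_zero.2 h2.symm
  have h3 := h.deg 0 0
  rw [if_pos rfl] at h3
  exact sub_eq_zero.1 (tens_inj (by rw [ch_comm C]; exact h3) h3 h1)

lemma num_nilpotence_of_relations (hne : ∀ X : 𝒱.Obj, (1 : C.A X) ≠ 0) (h : NumRelations C) :
    NumNilpotence C := by
  intro X u hu
  have hI := isAdequate_numFam hne
  by_cases hX : X.dim = 0
  · have hz' : u ∈ numFam C (X.prod X) 0 := hI.congr (by rw [hX]; norm_num) hu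
    obtain ⟨q, hq⟩ := hC.gr_zero _ _ (hI.le_gr _ _ hz')
    refine ⟨1, ?_⟩
    rw [List.replicate_one, compList, compList, comp_dg]
    by_cases hq0 : q = 0
    · rw [hq, hq0, zero_smul]
    · exfalso
      apply (isPrime_numFam hne).one_notMem (X.prod X)
      have h3 := Submodule.smul_mem _ q⁻¹ hz'
      rwa [hq, smul_smul, inv_mul_cancel₀ hq0, one_smul] at h3
  obtain ⟨Q, e, a, b, hab⟩ := exists_units (C := C) (Nat.pos_of_ne_zero hX) 1
  have hnil : IsNilpotent (lm C u) := by
    by_contra hcon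
    obtain ⟨s, z, hz, hroot⟩ :=
      exists_scaled_root (E := Module.End ℚ (C.A (X.prod X))) (T := lm C u) hcon
    have hsu : s • u ∈ numFam C (X.prod X) X.dim := Submodule.smul_mem _ s hu
    obtain ⟨w, hw1, hw⟩ := h (X.prod Q) (vv a b (s • u)) (fun i => vv_spec hab hI hsu i)
    apply hw1
    apply eq_one_of_aeval hz
    intro i j
    have hT : (compL C (s • u) : Module.End ℚ (C.A (X.prod X))) = s • lm C u := map_smul _ _ _
    have h1 : Polynomial.aeval (s • lm C u)
        ((mw w : Matrix (Fin 2) (Fin 2) (Polynomial ℚ)) i j -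
          (1 : Matrix (Fin 2) (Fin 2) (Polynomial ℚ)) i j) = 0 := by
      apply entries_of_trivial
      intro v
      apply col_inj hab
      have h2 := comp_word_col hab (s • u) w v
      rw [hw, dg_comp, hT] at h2
      exact h2.symm
    have h2 := hroot _ h1
    rw [map_sub, sub_eq_zero] at h2
    rw [h2]
    by_cases hij : i = j
    · subst hij; simp
    · rw [Matrix.one_apply_ne hij, Matrix.one_apply_ne hij, map_zero]
  obtain ⟨n, hn⟩ := hnil
  refine ⟨n, ?_⟩
  rw [compList_replicate]
  have h3 : (lm C u ^ n) (dg C X) = 0 := by rw [hn]; rfl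
  exact h3

/-! ### Kimura finite-dimensionality implies nilpotence -/

lemma nilpotent_of_kimura (hne : ∀ X : 𝒱.Obj, (1 : C.A X) ≠ 0)
    (h : IsKimuraFinite C (ratFam C) X) {δ : R0 C X}
    (hδ : toA δ ∈ numFam C (X.prod X) X.dim) : IsNilpotent δ := by
  apply isNilpotent_of_prime
  intro P hP
  have hle : P ≤ numFam C := hP.toIsAdequate.le_numFam hP.one_notMem
  obtain ⟨f, hf1, ⟨n, hf2⟩, ⟨m, hf3⟩⟩ :=
    (isKimuraFinite_iff _ X).1 (h.mono (J := P) (fun _ _ => bot_le))
  have hidem : mk P hP.toIsAdequate X f * mk P hP.toIsAdequate X f =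
      mk P hP.toIsAdequate X f := by
    rw [← map_mul, ← sub_eq_zero, ← map_sub]
    exact mk_eq_zero.2 hf1
  have hs : ∀ a b : RP P hP.toIsAdequate X, trP hne P hP.toIsAdequate hle X (a * b) =
      trP hne P hP.toIsAdequate hle X (b * a) := fun a b => trP_comm a b
  refine isNilpotent_of_inRad hs hidem (n := n) (m := m)
    (Dies.killed (hne := hne) hP.one_notMem hf2) ?_ (x := mk P hP.toIsAdequate X δ) ?_
  · have := Dies.killed (hne := hne) (hP := hP.toIsAdequate) (hle := hle) hP.one_notMem hf3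
    rwa [map_sub, map_one] at this
  · intro γ
    obtain ⟨γ, rfl⟩ := Ideal.Quotient.mk_surjective γ
    rw [← map_mul, trP_mk]
    apply trL_of_num (hne := hne)
    exact adq_comp_right (isAdequate_numFam hne) (toA_mem γ) hδ

lemma toA_pow (δ : R0 C X) (n : ℕ) :
    toA (δ ^ n) = compList C X (List.replicate n (toA δ)) := by
  induction n with
  | zero => rfl
  | succ n ih => rw [pow_succ, toA_mul, ih, List.replicate_succ, compList]

lemma num_nilpotence_of_kimura (hne : ∀ X : 𝒱.Obj, (1 : C.A X) ≠ 0)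
    (h : ∀ X : 𝒱.Obj, IsKimuraFinite C (ratFam C) X) : NumNilpotence C := by
  intro X W hW
  obtain ⟨n, hn⟩ := nilpotent_of_kimura hne (h X) (δ := ofA W hW.1) hW
  refine ⟨n, ?_⟩
  have h1 := toA_pow (ofA W hW.1) n
  rw [hn, map_zero, toA_ofA] at h1
  exact h1.symm

end Pool.Agent.V1126.BN
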