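import Pool.Agent.V1126.BN.Kim1

/-!
# Exterior and symmetric powers of motives under nilpotence
-/

open CategoryTheory AlgebraicGeometry

universe u v w

namespace Pool.Agent.V1126.BN

open Pool.Agent.H914 Pool.Agent.H914.VarClass Pool.Agent.H914.VarClass.Obj Pool.Agent.W492.BB
  Pool.Agent.W550.Corr Pool.Agent.TH133 Pool.Agent.Y148.BB Pool.Agent.TH829.Prime
  Pool.Agent.V1157.RC Pool.Agent.V1157.PI Pool.Agent.TH829.Kim

set_option linter.unusedSectionVars false

variable {k : Type u} [Field k] {𝒱 : VarClass k}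

/-! ### Powers -/

/-- The projections of the power `X^(n+1)`. -/
noncomputable def pr (X : 𝒱.Obj) : ∀ n : ℕ, Fin (n + 1) → (powObj X n ⟶ X)
  | 0 => fun _ => 𝟙 X
  | n + 1 => Fin.cons (fst X (powObj X n)) fun i => snd X (powObj X n) ≫ pr X n i

lemma exists_pr {X V : 𝒱.Obj} (n : ℕ) (x : Fin (n + 1) → (V ⟶ X)) :
    ∃ g : V ⟶ powObj X n, ∀ i, g ≫ pr X n i = x i := by
  induction n with
  | zero =>
    refine ⟨x 0, fun i => ?_⟩
    rw [Subsingleton.elim (α := Fin 1) i 0]
    exact Category.comp_id _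
  | succ n ih =>
    obtain ⟨g, hg⟩ := ih fun i => x i.succ
    refine ⟨Obj.lift (x 0) g, fun i => ?_⟩
    refine Fin.cases ?_ (fun i => ?_) i
    · exact lift_fst _ _
    · change Obj.lift (x 0) g ≫ snd X (powObj X n) ≫ pr X n i = x i.succ
      rw [lift_snd_assoc, hg]

lemma pr_ext {X V : 𝒱.Obj} (n : ℕ) {g g' : V ⟶ powObj X n}
    (h : ∀ i, g ≫ pr X n i = g' ≫ pr X n i) : g = g' := by
  induction n with
  | zero =>
    have e : ∀ g : V ⟶ powObj X 0, g ≫ pr X 0 0 = g := fun g => Category.comp_id g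
    have h0 := h 0
    rwa [e, e] at h0
  | succ n ih =>
    have e : ∀ (g : V ⟶ X.prod (powObj X n)) (i : Fin (n + 1)),
        g ≫ pr X (n + 1) i.succ = (g ≫ snd X (powObj X n)) ≫ pr X n i :=
      fun g i => (Category.assoc g _ _).symm
    refine prod_ext (h 0) (ih fun i => ?_)
    exact (e g i).symm.trans ((h i.succ).trans (e g' i))

lemma dim_pow (X : 𝒱.Obj) (n : ℕ) : ((powObj X n).dim : ℤ) = ((n + 1 : ℕ) : ℤ) * X.dim := by
  induction n with
  | zero => simp [powObj]
  | succ n ih =>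
    rw [powObj, dim_prod]
    push_cast at ih ⊢
    rw [ih]
    ring

variable {C : TheoryData.{u, v, 0} 𝒱 ℚ} [hC : IsChowProj C] {X Y Q Z V : 𝒱.Obj}

include hC

/-! ### Graphs of automorphisms -/

lemma push_one_iso {f : Z ⟶ Z} {f' : Z ⟶ Z} (h1 : f ≫ f' = 𝟙 Z) (h2 : f' ≫ f = 𝟙 Z) :
    C.push f 1 = 1 := by
  rw [← pull_iso C f' f h2 h1, map_one]

lemma cograph_iso {f : Z ⟶ Z} {f' : Z ⟶ Z} (h1 : f ≫ f' = 𝟙 Z) (h2 : f' ≫ f = 𝟙 Z) :
    C.cograph f = C.graph f' := by
  have e1 : Obj.lift f (𝟙 Z) = f ≫ Obj.lift (𝟙 Z) f' := by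
    rw [comp_lift, Category.comp_id, h1]
  rw [TheoryData.cograph, e1, C.push_comp, push_one_iso h1 h2]
  rfl

omit hC in
lemma prodMap_id_comp (f g : Z ⟶ Z) :
    prodMap (𝟙 Z) f ≫ prodMap (𝟙 Z) g = prodMap (𝟙 Z) (f ≫ g) := by
  apply prod_ext <;> simp

omit hC in
lemma prodMap_id_id : prodMap (𝟙 Z) (𝟙 Z) = 𝟙 (Z.prod Z) := by
  apply prod_ext <;> simp

lemma comp_graph_iso {f : Z ⟶ Z} {f' : Z ⟶ Z} (h1 : f ≫ f' = 𝟙 Z) (h2 : f' ≫ f = 𝟙 Z)
    (Γ : C.A (Z.prod Z)) : C.comp Γ (C.graph f) = C.pull (prodMap (𝟙 Z) f') Γ := by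
  rw [comp_graph]
  exact (pull_iso C (prodMap (𝟙 Z) f') (prodMap (𝟙 Z) f)
    (by rw [prodMap_id_comp, h2, prodMap_id_id]) (by rw [prodMap_id_comp, h1, prodMap_id_id])
    Γ).symm

lemma graph_comp_iso {f : Z ⟶ Z} {f' : Z ⟶ Z} (h1 : f ≫ f' = 𝟙 Z) (h2 : f' ≫ f = 𝟙 Z)
    (Γ : C.A (Z.prod Z)) : C.comp (C.graph f) Γ = C.pull (prodMap f (𝟙 Z)) Γ := by
  have e : (sw Z Z ≫ prodMap (𝟙 Z) f) ≫ sw Z Z = prodMap f (𝟙 Z) := by
    apply prod_ext <;> simp [sw]
  rw [← tp_tp C (C.comp (C.graph f) Γ), tpc, tp_graph, cograph_iso h1 h2,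
    comp_graph_iso h2 h1, tp, tp, ← C.pull_comp, ← C.pull_comp, e]

lemma graph_comp_graph (f g : Z ⟶ Z) : C.comp (C.graph f) (C.graph g) = C.graph (f ≫ g) := by
  have e : Obj.lift (𝟙 Z) f ≫ prodMap (𝟙 Z) g = Obj.lift (𝟙 Z) (f ≫ g) := by
    apply prod_ext <;> simp
  rw [comp_graph, TheoryData.graph, ← C.push_comp, e]
  rfl

/-! ### Tensor powers of correspondences -/

/-- The tensor power of a self-correspondence. -/
noncomputable def tpow (p : C.A (X.prod X)) : ∀ n : ℕ, C.A ((powObj X n).prod (powObj X n))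
  | 0 => p
  | n + 1 => tens C p (tpow p n)

lemma tpow_comp {p : C.A (X.prod X)} (hp : C.comp p p = p) (n : ℕ) :
    C.comp (tpow p n) (tpow p n) = tpow p n := by
  induction n with
  | zero => exact hp
  | succ n ih =>
    have h1 := tens_comp' (C := C) p p (tpow p n) (tpow p n)
    rw [hp, ih] at h1
    exact h1

lemma tpow_eq (p : C.A (X.prod X)) (n : ℕ) : tpow p n =
    ∏ i, ev p (fst (powObj X n) (powObj X n) ≫ pr X n i)
      (snd (powObj X n) (powObj X n) ≫ pr X n i) := by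
  induction n with
  | zero =>
    rw [Fin.prod_univ_one]
    change p = ev p (fst X X ≫ 𝟙 X) (snd X X ≫ 𝟙 X)
    rw [Category.comp_id, Category.comp_id, ev_univ]
  | succ n ih =>
    rw [tpow, tens, Fin.prod_univ_succ, ih, map_prod]
    congr 1
    apply Finset.prod_congr rfl
    intro i _
    rw [pull_ev]
    have e1 : prodMap (snd X (powObj X n)) (snd X (powObj X n)) ≫
        fst (powObj X n) (powObj X n) ≫ pr X n i =
        fst (powObj X (n + 1)) (powObj X (n + 1)) ≫ pr X (n + 1) i.succ := by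
      rw [prodMap_fst_assoc]
      rfl
    have e2 : prodMap (snd X (powObj X n)) (snd X (powObj X n)) ≫
        snd (powObj X n) (powObj X n) ≫ pr X n i =
        snd (powObj X (n + 1)) (powObj X (n + 1)) ≫ pr X (n + 1) i.succ := by
      rw [prodMap_snd_assoc]
      rfl
    rw [e1, e2]
    rfl

/-- The universal (anti)symmetrization. -/
noncomputable def anti (s : Bool) (p : C.A (X.prod X)) (n : ℕ) :
    C.A ((powObj X n).prod (powObj X n)) :=
  gd s (fun _ _ => p) (fun i => fst (powObj X n) (powObj X n) ≫ pr X n i)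
    (fun i => snd (powObj X n) (powObj X n) ≫ pr X n i)

lemma anti_comp (s : Bool) {p : C.A (X.prod X)} (hp : C.comp p p = p) (n : ℕ) :
    C.comp (anti s p n) (anti s p n) =
      ((Fintype.card (Equiv.Perm (Fin (n + 1))) : ℕ) : ℚ) • anti s p n := by
  classical
  set Z := powObj X n with hZ
  choose pm hpm using fun σ : Equiv.Perm (Fin (n + 1)) =>
    exists_pr (X := X) (V := Z) n fun i => pr X n (σ i)
  have hmul : ∀ σ τ, pm σ ≫ pm τ = pm (σ * τ) := by
    intro σ τ
    apply pr_ext n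
    intro i
    rw [Category.assoc, hpm, hpm, hpm, Equiv.Perm.mul_apply]
  have hone : pm 1 = 𝟙 Z := by
    apply pr_ext n
    intro i
    rw [hpm, Category.id_comp, Equiv.Perm.one_apply]
  have hinv1 : ∀ σ, pm σ ≫ pm σ⁻¹ = 𝟙 Z := fun σ => by rw [hmul, mul_inv_cancel, hone]
  have hinv2 : ∀ σ, pm σ⁻¹ ≫ pm σ = 𝟙 Z := fun σ => by rw [hmul, inv_mul_cancel, hone]
  set b := tpow p n with hb
  let G : Equiv.Perm (Fin (n + 1)) → C.A (Z.prod Z) := fun σ => C.graph (pm σ⁻¹)
  have hbG : ∀ σ, C.comp b (G σ) = ∏ i, ev p (fst Z Z ≫ pr X n i) (snd Z Z ≫ pr X n (σ i)) := by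
    intro σ
    change C.comp b (C.graph (pm σ⁻¹)) = _
    rw [comp_graph_iso (hinv2 σ) (hinv1 σ), hb, tpow_eq, map_prod]
    apply Finset.prod_congr rfl
    intro i _
    rw [pull_ev, prodMap_fst_assoc, prodMap_snd_assoc, Category.id_comp, hpm]
  have hGb : ∀ σ, C.comp (G σ) b = C.comp b (G σ) := by
    intro σ
    rw [hbG]
    change C.comp (C.graph (pm σ⁻¹)) b = _
    rw [graph_comp_iso (hinv2 σ) (hinv1 σ), hb, tpow_eq, map_prod, ← Equiv.prod_comp σ]
    apply Finset.prod_congr rfl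
    intro i _
    rw [pull_ev, prodMap_fst_assoc, prodMap_snd_assoc, Category.id_comp, hpm,
      show σ⁻¹ (σ i) = i from σ.symm_apply_apply i]
  have hGG : ∀ σ τ, C.comp (G σ) (G τ) = G (τ * σ) := by
    intro σ τ
    change C.comp (C.graph (pm σ⁻¹)) (C.graph (pm τ⁻¹)) = C.graph (pm (τ * σ)⁻¹)
    rw [graph_comp_graph, hmul, mul_inv_rev]
  have hA : anti s p n = ∑ σ, ((wt s σ : ℤ) : ℚ) • C.comp b (G σ) := by
    rw [anti, gd]
    apply Finset.sum_congr rfl
    intro σ _
    rw [hbG, Int.cast_smul_eq_zsmul ℚ]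
  have hprod : ∀ σ τ, C.comp (C.comp b (G σ)) (C.comp b (G τ)) = C.comp b (G (τ * σ)) := by
    intro σ τ
    rw [comp_assoc, ← comp_assoc C (G σ), hGb, comp_assoc, ← comp_assoc C b, tpow_comp hp, hGG]
  have hsum : ∀ σ : Equiv.Perm (Fin (n + 1)),
      ∑ τ, ((wt s (τ * σ) : ℤ) : ℚ) • C.comp b (G (τ * σ)) = anti s p n := by
    intro σ
    rw [hA]
    exact Equiv.sum_comp (Equiv.mulRight σ) (fun τ => ((wt s τ : ℤ) : ℚ) • C.comp b (G τ))
  calc C.comp (anti s p n) (anti s p n) =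
      ∑ σ : Equiv.Perm (Fin (n + 1)), ∑ τ : Equiv.Perm (Fin (n + 1)),
        ((wt s (τ * σ) : ℤ) : ℚ) • C.comp b (G (τ * σ)) := by
        conv_lhs => rw [hA]
        rw [sum_comp]
        apply Finset.sum_congr rfl
        intro σ _
        rw [comp_sum]
        apply Finset.sum_congr rfl
        intro τ _
        rw [smul_comp', comp_smul', hprod, smul_smul, wt_mul]
        push_cast
        rw [mul_comm]
    _ = ∑ _σ : Equiv.Perm (Fin (n + 1)), anti s p n :=
        Finset.sum_congr rfl fun σ _ => hsum σ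
    _ = _ := by
        rw [Finset.sum_const, Finset.card_univ, ← Nat.cast_smul_eq_nsmul ℚ]

/-- If numerically trivial self-correspondences are nilpotent, then an (anti)symmetrization of an
idempotent which vanishes modulo numerical equivalence vanishes. -/
lemma dies_of_nilpotence (hN : NumNilpotence C) {s : Bool} {f : R0 C X} (hf : f * f = f) {n : ℕ}
    (h : Dies (numFam C) s f (n + 1)) : Dies (ratFam C) s f (n + 1) := by
  have hp : C.comp (toA f) (toA f) = toA f := by rw [← toA_mul, hf]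
  have hA : anti s (toA f) n ∈ numFam C ((powObj X n).prod (powObj X n)) (powObj X n).dim := by
    have h1 := h ((powObj X n).prod (powObj X n))
      (fun i => fst (powObj X n) (powObj X n) ≫ pr X n i)
      (fun i => snd (powObj X n) (powObj X n) ≫ pr X n i)
    rw [dim_pow]
    exact h1
  obtain ⟨m, hm⟩ := hN _ _ hA
  rw [compList_replicate] at hm
  set A := anti s (toA f) n with hAdef
  set N : ℚ := ((Fintype.card (Equiv.Perm (Fin (n + 1))) : ℕ) : ℚ) with hNdef
  have hN0 : N ≠ 0 := by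
    rw [hNdef]
    exact_mod_cast Fintype.card_ne_zero
  have hAA : C.comp A A = N • A := anti_comp s hp n
  have h1 : ∀ j : ℕ, (lm C A ^ j) A = N ^ j • A := by
    intro j
    induction j with
    | zero => rw [pow_zero, pow_zero, one_smul]; rfl
    | succ j ih =>
      rw [pow_succ', Module.End.mul_apply, ih, map_smul, lm_apply, hAA, smul_smul, ← pow_succ]
  have h2 : (lm C A ^ m) A = 0 := by
    have h3 : A = lm C A (dg C _) := by rw [lm_apply, comp_dg]
    have h4 : (lm C A ^ m) A = (lm C A ^ m) (lm C A (dg C _)) := congrArg _ h3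
    rw [h4, ← Module.End.mul_apply, ← pow_succ, pow_succ', Module.End.mul_apply]
    have h5 : (lm C A ^ m) (dg C _) = 0 := hm
    rw [h5, map_zero]
  have hA0 : A = 0 := by
    have h3 := h1 m
    rw [h2] at h3
    have h4 := congrArg (fun x => (N ^ m)⁻¹ • x) h3
    simpa only [smul_smul, inv_mul_cancel₀ (pow_ne_zero m hN0), one_smul, smul_zero]
      using h4.symm
  intro W x y
  obtain ⟨gx, hgx⟩ := exists_pr n x
  obtain ⟨gy, hgy⟩ := exists_pr n y
  have h3 : C.pull (Obj.lift gx gy) A = gd s (fun _ _ => toA f) x y := by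
    rw [hAdef, anti, pull_gd]
    congr 1
    · funext i
      rw [lift_fst_assoc, hgx]
    · funext i
      rw [lift_snd_assoc, hgy]
  rw [← h3, hA0, map_zero]
  exact Submodule.zero_mem _

/-- Nilpotence and finite-dimensionality modulo numerical equivalence imply finite-dimensionality. -/
theorem kimura_of_nilpotence (hne : ∀ X : 𝒱.Obj, (1 : C.A X) ≠ 0) (hN : NumNilpotence C)
    (h : IsKimuraFinite C (numFam C) X) : IsKimuraFinite C (ratFam C) X := by
  have hI := isAdequate_numFam hne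
  obtain ⟨e, he, ⟨n, h1⟩, ⟨m, h2⟩⟩ := (isKimuraFinite_iff _ X).1 h
  have hnil : IsNilpotent (e * e - e) := by
    obtain ⟨j, hj⟩ := hN X _ he
    refine ⟨j, toA_inj ?_⟩
    rw [toA_pow, hj, map_zero]
  obtain ⟨e', c, he', hc⟩ := exists_lift hnil
  have hmk : mk (numFam C) hI X (e * e - e) = 0 := mk_eq_zero.2 he
  have hmk' : mk (numFam C) hI X e' = mk (numFam C) hI X e := by
    rw [← sub_eq_zero, ← map_sub, hc, map_mul, hmk, zero_mul]
  have h1' : Dies (numFam C) true e' (n + 1) :=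
    h1.conj (hP := hI) (u := 1) (v := 1) (by rw [one_mul, mul_one, hmk'])
  have h2' : Dies (numFam C) false (1 - e') (m + 1) :=
    h2.conj (hP := hI) (u := 1) (v := 1) (by rw [one_mul, mul_one, map_sub, map_sub, hmk'])
  refine (isKimuraFinite_iff _ X).2 ⟨e', ?_, ⟨n, dies_of_nilpotence hN he' h1'⟩,
    ⟨m, dies_of_nilpotence hN ?_ h2'⟩⟩
  · rw [he', sub_self, map_zero]
    exact Submodule.zero_mem _
  · rw [mul_sub, sub_mul, sub_mul, one_mul, one_mul, mul_one, he', sub_self, sub_zero]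

/-- **The main theorem.** -/
theorem kimura_iff_relations (hne : ∀ X : 𝒱.Obj, (1 : C.A X) ≠ 0) :
    (∀ X : 𝒱.Obj, IsKimuraFinite C (ratFam C) X) ↔
      (∀ X : 𝒱.Obj, IsKimuraFinite C (numFam C) X) ∧ NumRelations C := by
  constructor
  · intro h
    exact ⟨fun X => (h X).mono fun _ _ => bot_le,
      relations_of_num_nilpotence (num_nilpotence_of_kimura hne h)⟩
  · rintro ⟨h1, h2⟩ X
    exact kimura_of_nilpotence hne (num_nilpotence_of_relations hne h2) (h1 X)

end Pool.Agent.V1126.BN
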