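import Pool.Agent.V1126.BN.WordDefs
import Pool.Agent.TH829.Kim.Defs

/-!
# Nilpotence and relations for numerically trivial self-correspondences: definitions
-/

open CategoryTheory AlgebraicGeometry

universe u v w

namespace Pool.Agent.V1126.BN

open Pool.Agent.H914 Pool.Agent.H914.VarClass Pool.Agent.H914.VarClass.Obj Pool.Agent.W492.BB
  Pool.Agent.W550.Corr Pool.Agent.TH133 Pool.Agent.TH829.Prime

variable {k : Type u} [Field k] {𝒱 : VarClass k}

/-- Every numerically trivial self-correspondence of degree zero of every variety of the class is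
nilpotent. -/
def NumNilpotence (C : TheoryData.{u, v, 0} 𝒱 ℚ) : Prop :=
  ∀ (X : 𝒱.Obj) (W : C.A (X.prod X)), W ∈ numFam C (X.prod X) X.dim →
    ∃ n : ℕ, compList C X (List.replicate n W) = 0

/-- For all varieties `X` of the class and all numerically trivial self-correspondences `W 0`,
`W 1` of degree zero of `X` with `W i ∘ W i = 0` the units `1 + W 0` and `1 + W 1` of the ring of
self-correspondences of `X` satisfy a relation `w(1 + W 0, 1 + W 1) = 1` with `w ≠ 1`; that is,
they are not free generators of a free group. -/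
def NumRelations (C : TheoryData.{u, v, 0} 𝒱 ℚ) : Prop :=
  ∀ (X : 𝒱.Obj) (W : Fin 2 → C.A (X.prod X)),
    (∀ i, W i ∈ numFam C (X.prod X) X.dim ∧ C.comp (W i) (W i) = 0) →
      ∃ w : FreeGroup (Fin 2), w ≠ 1 ∧ wordVal C W w = dg C X

end Pool.Agent.V1126.BN
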