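import Pool.Agent.V1126.BN.SumDefs
import Pool.Agent.V1126.BN.AJ

/-!
# Sums and products of correspondences of square zero on kernels of Abel-Jacobi maps
-/

open CategoryTheory AlgebraicGeometry

universe u v w

namespace Pool.Agent.V1126.BN

open Pool.Agent.H914 Pool.Agent.H914.VarClass Pool.Agent.H914.VarClass.Obj Pool.Agent.W492.BB
  Pool.Agent.W550.Corr Pool.Agent.TH133 Pool.Agent.Y148.BB Pool.Agent.V1157.KF
  Pool.Agent.V1157.AK
open Pool.Agent.V1157.RC (act_smul' push_pull_of)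

set_option linter.unusedSectionVars false

variable {k : Type u} [Field k] {𝒱 : VarClass k} {C : TheoryData.{u, v, 0} 𝒱 ℚ}
  [hC : IsChowProj C] {K : Type w} [Field K] {H : WeilTheoryData.{u, v, w} C K}
  [hH : IsWeilProj H] {S V X Y : 𝒱.Obj} {n m : ℕ}

include hC hH

lemma exists_pair (a : AbelJacobi.{u, v, w} H n m)
    (hP : ∀ (S : 𝒱.Obj) (N : ℕ), S.dim = n → HasPower C n N S) (hS : S.dim = n) {x : C.A S}
    (hx : InKernel a S x) (hx0 : x ≠ 0) :
    ∃ (V : 𝒱.Obj) (E : Fin 2 → C.A (V.prod V)) (y z : Ker a V), IsSquareZeroPair a V E ∧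
      C.act (E 0) y.1 = (2 : ℚ) • z.1 ∧ C.act (E 1) z.1 = (2 : ℚ) • y.1 ∧
      C.act (E 0) z.1 = 0 ∧ C.act (E 1) y.1 = 0 ∧ z.1 ≠ 0 ∧ y.1 + z.1 ≠ 0 := by
  obtain ⟨V, p, β, c, κ, hp⟩ := exists_pw hS (hP S 2 hS)
  have hκ := hp.hκ
  set s : ℚ := 2 / κ with hs
  have hsκ : s * κ = 2 := by rw [hs]; field_simp
  have hsp := fun i => ee_spec a hp s i
  have hker : ∀ i : ℕ, InKernel a V (C.pull (p i) x) := fun i =>
    ((kernel_fam a).pull (p i) hp.dimV hp.dimS ⟨hS, hx⟩).2
  refine ⟨V, ee C p s, ⟨_, hker 0⟩, ⟨_, hker 1⟩, ⟨hp.dimV, fun i => (hsp i).1,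
    fun i x => (hsp i).2.2 x.1 x.2⟩, ?_, ?_, ?_, ?_, ?_, ?_⟩
  · change C.act (s • mt C (p 0) (p 1)) (C.pull (p 0) x) = (2 : ℚ) • C.pull (p 1) x
    rw [act_smul', act_mt, push_pull_of (hp.pp 0 (by norm_num)), map_smul, smul_smul, hsκ]
  · change C.act (s • mt C (p 1) (p 0)) (C.pull (p 1) x) = (2 : ℚ) • C.pull (p 0) x
    rw [act_smul', act_mt, push_pull_of (hp.pp 1 (by norm_num)), map_smul, smul_smul, hsκ]
  · change C.act (s • mt C (p 0) (p 1)) (C.pull (p 1) x) = 0
    rw [act_smul', act_mt, hp.push_pull_ne H (i := 1) (j := 0) (by norm_num) (by norm_num)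
      (by norm_num) hx.1, map_zero, smul_zero]
  · change C.act (s • mt C (p 1) (p 0)) (C.pull (p 0) x) = 0
    rw [act_smul', act_mt, hp.push_pull_ne H (i := 0) (j := 1) (by norm_num) (by norm_num)
      (by norm_num) hx.1, map_zero, smul_zero]
  · intro h
    change C.pull (p 1) x = 0 at h
    have h2 := congrArg (C.push (p 1)) h
    rw [push_pull_of (hp.pp 1 (by norm_num)), map_zero] at h2
    exact (smul_ne_zero hκ hx0) h2
  · intro h
    change C.pull (p 0) x + C.pull (p 1) x = 0 at h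
    have h2 := congrArg (C.push (p 1)) h
    rw [map_add, push_pull_of (hp.pp 1 (by norm_num)),
      hp.push_pull_ne H (i := 0) (j := 1) (by norm_num) (by norm_num) (by norm_num) hx.1,
      map_zero, zero_add] at h2
    exact (smul_ne_zero hκ hx0) h2

theorem aj_sums (a : AbelJacobi.{u, v, w} H n m)
    (hP : ∀ (S : 𝒱.Obj) (N : ℕ), S.dim = n → HasPower C n N S) :
    List.TFAE [AllInjective a, NoFreePairs a, ProductsNil a, SumsNil a, NoEigenvectors a] := by
  have hz : ∀ {X : 𝒱.Obj} (E : C.A (X.prod X)) (q : ℚ) (y : C.A X),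
      C.act E (q • y) = q • C.act E y := fun E q y => by rw [act_map_smul]
  tfae_have 1 ↔ 2 := aj_iff a hP
  tfae_have 1 → 3 := fun h X E x hE => ⟨0, h X x.1 hE.1 x.2⟩
  tfae_have 1 → 4 := fun h X E x hE => ⟨0, h X x.1 hE.1 x.2⟩
  tfae_have 1 → 5 := fun h X E x q hE _ _ => h X x.1 hE.1 x.2
  tfae_have 3 → 1 := by
    intro h S x hS hx
    by_contra hx0
    obtain ⟨V, E, y, z, hE, h1, h2, h3, h4, h5, h6⟩ := exists_pair a hP hS hx hx0
    obtain ⟨r, hr⟩ := h V E z hE
    have key : ∀ r : ℕ, (fun y : C.A V => C.act (E 0) (C.act (E 1) y))^[r] z.1 =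
        ((4 : ℚ) ^ r) • z.1 := by
      intro r
      induction r with
      | zero => simp
      | succ r ih =>
        rw [Function.iterate_succ_apply', ih, hz, hz, h2, hz, h1, smul_smul, smul_smul]
        congr 1
        ring
    rw [key] at hr
    exact (smul_ne_zero (pow_ne_zero r (by norm_num : (4 : ℚ) ≠ 0)) h5) hr
  tfae_have 4 → 1 := by
    intro h S x hS hx
    by_contra hx0
    obtain ⟨V, E, y, z, hE, h1, h2, h3, h4, h5, h6⟩ := exists_pair a hP hS hx hx0
    obtain ⟨r, hr⟩ := h V E ⟨y.1 + z.1, kernel_add a y.2 z.2⟩ hE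
    have key : ∀ r : ℕ, (fun y : C.A V => C.act (E 0) y + C.act (E 1) y)^[r] (y.1 + z.1) =
        ((2 : ℚ) ^ r) • (y.1 + z.1) := by
      intro r
      induction r with
      | zero => simp
      | succ r ih =>
        rw [Function.iterate_succ_apply', ih, hz, hz, act_map_add, act_map_add, h1, h2, h3, h4,
          add_zero, zero_add, ← smul_add, ← smul_add, smul_smul, ← pow_succ, add_comm z.1 y.1]
    rw [key] at hr
    exact (smul_ne_zero (pow_ne_zero r (by norm_num : (2 : ℚ) ≠ 0)) h6) hr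
  tfae_have 5 → 1 := by
    intro h S x hS hx
    by_contra hx0
    obtain ⟨V, E, y, z, hE, h1, h2, h3, h4, h5, h6⟩ := exists_pair a hP hS hx hx0
    refine h5 (h V E z 4 hE (by norm_num) ?_)
    rw [h2, hz, h1, smul_smul]
    norm_num
  tfae_finish

end Pool.Agent.V1126.BN
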