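import Pool.Agent.V1126.BN.AJDefs

/-!
# Sums and products of correspondences of square zero on kernels of Abel-Jacobi maps: definitions
-/

open CategoryTheory AlgebraicGeometry

universe u v w

namespace Pool.Agent.V1126.BN

open Pool.Agent.H914 Pool.Agent.H914.VarClass Pool.Agent.H914.VarClass.Obj Pool.Agent.W492.BB
  Pool.Agent.V1157.KF Pool.Agent.V1157.AK

variable {k : Type u} [Field k] {𝒱 : VarClass k} {C : TheoryData.{u, v, 0} 𝒱 ℚ} {K : Type w}
  [Field K] {H : WeilTheoryData.{u, v, w} C K} {n m : ℕ}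

/-- `X` has dimension `n`, and `E 0`, `E 1` are self-correspondences of degree zero of `X` whose
squares act as zero on the kernel `N(X)` of the Abel-Jacobi map. -/
def IsSquareZeroPair (a : AbelJacobi.{u, v, w} H n m) (X : 𝒱.Obj) (E : Fin 2 → C.A (X.prod X)) :
    Prop :=
  X.dim = n ∧ (∀ i, C.Deg n (E i)) ∧ ∀ i (x : Ker a X), C.act (E i) (C.act (E i) x.1) = 0

/-- The product of two self-correspondences whose squares are zero on `N(X)` is locally nilpotent on
`N(X)`: for each `x` in `N(X)` some power of `E 0 ∘ E 1` maps `x` to zero. -/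
def ProductsNil (a : AbelJacobi.{u, v, w} H n m) : Prop :=
  ∀ (X : 𝒱.Obj) (E : Fin 2 → C.A (X.prod X)) (x : Ker a X), IsSquareZeroPair a X E →
    ∃ r : ℕ, (fun y : C.A X => C.act (E 0) (C.act (E 1) y))^[r] x.1 = 0

/-- The sum of two self-correspondences whose squares are zero on `N(X)` is locally nilpotent on
`N(X)`: for each `x` in `N(X)` some power of `E 0 + E 1` maps `x` to zero. -/
def SumsNil (a : AbelJacobi.{u, v, w} H n m) : Prop :=
  ∀ (X : 𝒱.Obj) (E : Fin 2 → C.A (X.prod X)) (x : Ker a X), IsSquareZeroPair a X E →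
    ∃ r : ℕ, (fun y : C.A X => C.act (E 0) y + C.act (E 1) y)^[r] x.1 = 0

/-- The product of two self-correspondences whose squares are zero on `N(X)` has no eigenvector in
`N(X)` with a nonzero rational eigenvalue. -/
def NoEigenvectors (a : AbelJacobi.{u, v, w} H n m) : Prop :=
  ∀ (X : 𝒱.Obj) (E : Fin 2 → C.A (X.prod X)) (x : Ker a X) (q : ℚ), IsSquareZeroPair a X E →
    q ≠ 0 → C.act (E 0) (C.act (E 1) x.1) = q • x.1 → x.1 = 0

end Pool.Agent.V1126.BN
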