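import Pool.Agent.TH829.Prime.Defs

/-!
# Words in unipotent self-correspondences: definitions
-/

open CategoryTheory AlgebraicGeometry

universe u v w

namespace Pool.Agent.V1126.BN

open Pool.Agent.H914 Pool.Agent.H914.VarClass Pool.Agent.H914.VarClass.Obj Pool.Agent.W492.BB
  Pool.Agent.W550.Corr Pool.Agent.TH133 Pool.Agent.TH829.Prime

variable {k : Type u} [Field k] {𝒱 : VarClass k}

/-- The factor `1 + W i` belonging to the letter `i`, and `1 - W i` (which is its inverse if
`W i ∘ W i = 0`) belonging to the inverse of this letter. -/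
noncomputable def factor (C : TheoryData.{u, v, 0} 𝒱 ℚ) {X : 𝒱.Obj} (W : Fin 2 → C.A (X.prod X))
    (x : Fin 2 × Bool) : C.A (X.prod X) :=
  if x.2 then dg C X + W x.1 else dg C X - W x.1

/-- The value `w(1 + W 0, 1 + W 1)` of the element `w` of the free group on two generators at the
self-correspondences `1 + W 0` and `1 + W 1` of `X`, where `W i ∘ W i = 0`: the composition of the
factors along the reduced word of `w`. -/
noncomputable def wordVal (C : TheoryData.{u, v, 0} 𝒱 ℚ) {X : 𝒱.Obj}
    (W : Fin 2 → C.A (X.prod X)) (w : FreeGroup (Fin 2)) : C.A (X.prod X) :=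
  compList C X (w.toWord.map (factor C W))

/-- For all varieties `X` and all `W 0`, `W 1` in the subspace `I` of the self-correspondences of
`X` of degree zero with `W i ∘ W i = 0` the class `w(1 + W 0, 1 + W 1) - 1` is smash-nilpotent. -/
def SmashRelation (C : TheoryData.{u, v, 0} 𝒱 ℚ) (I : Family C) (w : FreeGroup (Fin 2)) : Prop :=
  ∀ (X : 𝒱.Obj) (W : Fin 2 → C.A (X.prod X)),
    (∀ i, W i ∈ I (X.prod X) X.dim ∧ C.comp (W i) (W i) = 0) →
      SmashNilpotent C (wordVal C W w - dg C X)

/-- For all varieties `X` and all numerically trivial self-correspondences `W 0`, `W 1` of `X` of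
degree zero with `W i ∘ W i = 0` the correspondence `w(1 + W 0, 1 + W 1)` is homologically
equivalent to the diagonal. -/
def HomRelation {C : TheoryData.{u, v, 0} 𝒱 ℚ} {K : Type w} [Field K]
    (H : WeilTheoryData.{u, v, w} C K) (w : FreeGroup (Fin 2)) : Prop :=
  ∀ (X : 𝒱.Obj) (W : Fin 2 → C.A (X.prod X)),
    (∀ i, W i ∈ numFam C (X.prod X) X.dim ∧ C.comp (W i) (W i) = 0) →
      H.cl (wordVal C W w) = H.cl (dg C X)

end Pool.Agent.V1126.BN
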